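import Pool.Agent.Lib.P512.Defs

/-!
# P512.ConnB: basic facts on connected sets
-/

namespace P512

open Finset

variable {V : Type*}

theorem conn_singleton (G : SimpleGraph V) (v : V) : Conn G {v} := by
  refine ⟨Finset.singleton_nonempty v, fun P hP hne hneq => ?_⟩
  exfalso
  rcases Finset.subset_singleton_iff.1 hP with h | h
  · exact hne.ne_empty h
  · exact hneq h

/-- a set with no edges leaving it except to `X` contains every connected set that meets it and
avoids `X` -/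
theorem conn_subset [DecidableEq V] {G : SimpleGraph V} {S W X : Finset V} (hS : Conn G S)
    (hW : ∀ u ∈ W, ∀ v, G.Adj u v → v ∈ W ∨ v ∈ X) (hd : ∀ v ∈ S, v ∉ X)
    (hm : ∃ v ∈ S, v ∈ W) : S ⊆ W := by
  by_contra hcon
  obtain ⟨v, hvS, hvW⟩ := hm
  obtain ⟨u, hu, w, hw, hwn, hadj⟩ := hS.2 (S ∩ W) Finset.inter_subset_left
    ⟨v, by simp [hvS, hvW]⟩ (fun he => hcon (by
      intro x hx
      rw [← he] at hx
      exact (Finset.mem_inter.1 hx).2))
  have hu' := Finset.mem_inter.1 hu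
  rcases hW u hu'.2 w hadj with h | h
  · exact hwn (Finset.mem_inter.2 ⟨hw, h⟩)
  · exact hd w hw h

theorem conn_of_forall {G : SimpleGraph V} [DecidableEq V] {S : Finset V} {r : V} (hr : r ∈ S)
    (h : ∀ P : Finset V, P ⊆ S → r ∈ P → P ≠ S → ∃ u ∈ P, ∃ v ∈ S, v ∉ P ∧ G.Adj u v) :
    Conn G S := by
  refine ⟨⟨r, hr⟩, fun P hP hne hneq => ?_⟩
  by_cases hrP : r ∈ P
  · exact h P hP hrP hneq
  · obtain ⟨u, hu, v, hv, hvn, hadj⟩ := h (S \ P) Finset.sdiff_subset
      (Finset.mem_sdiff.2 ⟨hr, hrP⟩) (fun he => by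
        obtain ⟨x, hx⟩ := hne
        have := hP hx
        rw [← he] at this
        exact (Finset.mem_sdiff.1 this).2 hx)
    have hu' := Finset.mem_sdiff.1 hu
    refine ⟨v, ?_, u, hu'.1, hu'.2, hadj.symm⟩
    by_contra hvP
    exact hvn (Finset.mem_sdiff.2 ⟨hv, hvP⟩)

theorem conn_union [DecidableEq V] {G : SimpleGraph V} {S T : Finset V} (h1 : Conn G S)
    (h2 : Conn G T) (h : (∃ v, v ∈ S ∧ v ∈ T) ∨ ∃ u ∈ S, ∃ v ∈ T, G.Adj u v) :
    Conn G (S ∪ T) := by
  obtain ⟨r, hr⟩ := h1.1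
  refine conn_of_forall (r := r) (Finset.mem_union_left _ hr) (fun P hP hrP hneq => ?_)
  by_cases hSP : S ⊆ P
  · -- `T` is not inside `P`
    have hTP : ¬ T ⊆ P := fun hT => hneq (le_antisymm hP (Finset.union_subset hSP hT))
    by_cases hm : (P ∩ T).Nonempty
    · obtain ⟨u, hu, v, hv, hvn, hadj⟩ := h2.2 (P ∩ T) Finset.inter_subset_right hm
        (fun he => hTP (by
          intro x hx
          rw [← he] at hx
          exact (Finset.mem_inter.1 hx).1))
      exact ⟨u, (Finset.mem_inter.1 hu).1, v, Finset.mem_union_right _ hv,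
        fun hvP => hvn (Finset.mem_inter.2 ⟨hvP, hv⟩), hadj⟩
    · rcases h with ⟨v, hv1, hv2⟩ | ⟨u, hu, v, hv, hadj⟩
      · exact absurd ⟨v, Finset.mem_inter.2 ⟨hSP hv1, hv2⟩⟩ hm
      · exact ⟨u, hSP hu, v, Finset.mem_union_right _ hv,
          fun hvP => hm ⟨v, Finset.mem_inter.2 ⟨hvP, hv⟩⟩, hadj⟩
  · obtain ⟨u, hu, v, hv, hvn, hadj⟩ := h1.2 (P ∩ S) Finset.inter_subset_right
      ⟨r, Finset.mem_inter.2 ⟨hrP, hr⟩⟩ (fun he => hSP (by
        intro x hx
        rw [← he] at hx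
        exact (Finset.mem_inter.1 hx).1))
    exact ⟨u, (Finset.mem_inter.1 hu).1, v, Finset.mem_union_left _ hv,
      fun hvP => hvn (Finset.mem_inter.2 ⟨hvP, hv⟩), hadj⟩

theorem conn_insert [DecidableEq V] {G : SimpleGraph V} {S : Finset V} {v : V} (h1 : Conn G S)
    (h : ∃ u ∈ S, G.Adj u v) : Conn G (insert v S) := by
  rw [Finset.insert_eq, Finset.union_comm]
  obtain ⟨u, hu, hadj⟩ := h
  exact conn_union h1 (conn_singleton G v) (Or.inr ⟨u, hu, v, by simp, hadj⟩)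

/-- the component of `C` inside `U` -/
theorem hull [DecidableEq V] (G : SimpleGraph V) (C U : Finset V) (hC : Conn G C) (hCU : C ⊆ U) :
    ∃ K, C ⊆ K ∧ K ⊆ U ∧ Conn G K ∧ ∀ u ∈ K, ∀ v ∈ U, G.Adj u v → v ∈ K := by
  classical
  let F := U.powerset.filter (fun K => C ⊆ K ∧ Conn G K)
  have hF : F.Nonempty := ⟨C, by simp [F, hC, hCU]⟩
  obtain ⟨K, hK, hmax⟩ := Finset.exists_max_image F Finset.card hF
  simp only [F, Finset.mem_filter, Finset.mem_powerset] at hK
  refine ⟨K, hK.2.1, hK.1, hK.2.2, fun u hu v hv hadj => ?_⟩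
  by_contra hvK
  have h1 : insert v K ∈ F := by
    simp only [F, Finset.mem_filter, Finset.mem_powerset]
    exact ⟨Finset.insert_subset hv hK.1, hK.2.1.trans (Finset.subset_insert _ _),
      conn_insert hK.2.2 ⟨u, hu, hadj⟩⟩
  have h2 := hmax _ h1
  rw [Finset.card_insert_of_notMem hvK] at h2
  omega

/-- cut form and path form of connectedness agree -/
theorem conn_iff (G : SimpleGraph V) (S : Finset V) :
    Conn G S ↔ (G.induce (S : Set V)).Connected := by
  classical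
  constructor
  · intro h
    have : Nonempty (S : Set V) := by
      obtain ⟨r, hr⟩ := h.1
      exact ⟨⟨r, hr⟩⟩
    refine ⟨fun x y => ?_⟩
    by_contra hxy
    let P : Finset V := S.filter (fun v => ∃ hv : v ∈ (S : Set V),
      (G.induce (S : Set V)).Reachable x ⟨v, hv⟩)
    have hxP : x.1 ∈ P := by
      simp only [P, Finset.mem_filter]
      exact ⟨x.2, x.2, SimpleGraph.Reachable.refl _⟩
    have hyP : y.1 ∉ P := by
      simp only [P, Finset.mem_filter]
      rintro ⟨-, hv, hr⟩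
      exact hxy hr
    obtain ⟨u, hu, v, hv, hvn, hadj⟩ := h.2 P (Finset.filter_subset _ _) ⟨_, hxP⟩
      (fun he => hyP (by rw [he]; exact y.2))
    simp only [P, Finset.mem_filter] at hu
    obtain ⟨-, hu1, hu2⟩ := hu
    apply hvn
    simp only [P, Finset.mem_filter]
    refine ⟨hv, hv, hu2.trans ?_⟩
    apply SimpleGraph.Adj.reachable
    simpa using hadj
  · intro h
    obtain ⟨⟨r, hr⟩⟩ := h.nonempty
    refine ⟨⟨r, hr⟩, fun P hP hne hneq => ?_⟩
    obtain ⟨p, hp⟩ := hne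
    obtain ⟨q, hq, hqP⟩ : ∃ q ∈ S, q ∉ P := by
      by_contra hcon
      push Not at hcon
      exact hneq (le_antisymm hP hcon)
    obtain ⟨w⟩ := h.preconnected ⟨p, hP hp⟩ ⟨q, hq⟩
    obtain ⟨d, -, hd1, hd2⟩ := w.exists_boundary_dart {x : (S : Set V) | x.1 ∈ P} hp hqP
    exact ⟨d.fst.1, hd1, d.snd.1, d.snd.2, hd2, by simpa using d.adj⟩

theorem K5In.k5 {G : SimpleGraph V} {U : Finset V} (h : K5In G U) : K5 G := by
  obtain ⟨B, hB, -⟩ := h
  exact ⟨B, hB⟩

end P512
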