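import Pool.Agent.Lib.P512.ConnB

/-!
# P512.Join: a `K_5` minor does not use a bridge

`hcut`: the only edge between `A` and its complement is `xy`.
(1) If `B k` meets `A` and its complement then `x ∈ B k` (`Conn` for `P = B k ∩ A`: the crossing edge leaves `A`).
(2) Every `B j` meets `A`: clear for `j = i0`.  Suppose `B j` is disjoint from `A`; the edge between `B i0 ⊆ A` and `B j` is `xy`: `x ∈ B i0`, `y ∈ B j`.  Take a third index `k` (different from `i0`, `j`; `decide`).  `x ∉ B k`, so by (1) `B k ⊆ A` or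
`B k` is disjoint from `A`.  If `B k ⊆ A`: its edge to `B j` is `xy`, `x ∈ B k`, contradiction with disjointness.  If `B k` is disjoint from `A`: its edge to `B i0` gives `y ∈ B k`, contradiction.
(3) The new branch sets are `B j ∩ A`.  Connected: let `P ⊆ B j ∩ A`, not empty, `≠ B j ∩ A`.  If `x ∉ P` use `Conn (B j)` for `P`: the crossing edge `uv`, `u ∈ P`, has `v ∈ A` (otherwise `u = x`).
If `x ∈ P` use `P ∪ (B j \ A)`: the crossing edge `uv`, `v ∈ B j ∩ A \ P`, has `u ∈ P` (otherwise `v = x` by `hcut` for the reversed edge).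
Joined: an edge `uv` between `B j` and `B k`: if both are in `A`, fine; if `u ∈ A`, `v ∉ A` then `u = x`, and `B k` meets `A` and its complement, so `x ∈ B k`: contradiction; same for `u ∉ A`, `v ∈ A`; if both are outside `A` then `x ∈ B j ∩ B k`: contradiction.
-/

namespace P512

open Finset

variable {V : Type*}

namespace JoinAux

theorem cross [DecidableEq V] {G : SimpleGraph V} {A : Finset V} {x y : V}
    (hcut : ∀ u ∈ A, ∀ v, v ∉ A → G.Adj u v → u = x ∧ v = y) {S : Finset V} (hS : Conn G S)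
    (h1 : ∃ u ∈ S, u ∈ A) (h2 : ∃ v ∈ S, v ∉ A) : x ∈ S := by
  obtain ⟨a, ha, ha'⟩ := h1
  obtain ⟨b, hb, hb'⟩ := h2
  obtain ⟨u, hu, v, hv, hvP, huv⟩ := hS.2 (S ∩ A) Finset.inter_subset_left
    ⟨a, Finset.mem_inter.2 ⟨ha, ha'⟩⟩ (fun h => by
      rw [← h] at hb
      exact hb' (Finset.mem_inter.1 hb).2)
  obtain ⟨huS, huA⟩ := Finset.mem_inter.1 hu
  have hvA : v ∉ A := fun h => hvP (Finset.mem_inter.2 ⟨hv, h⟩)
  rw [← (hcut u huA v hvA huv).1]
  exact huS

end JoinAux

open JoinAux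

theorem join_in [DecidableEq V] (G : SimpleGraph V) (A : Finset V) (x y : V)
    (hcut : ∀ u ∈ A, ∀ v, v ∉ A → G.Adj u v → u = x ∧ v = y) (B : Fin 5 → Finset V)
    (hB : Model G B) (i0 : Fin 5) (hi : B i0 ⊆ A) : K5In G A := by
  obtain ⟨hconn, hdis, hadj⟩ := hB
  have dis : ∀ i j, i ≠ j → ∀ z, z ∈ B i → z ∈ B j → False := fun i j hij z h1 h2 =>
    Finset.disjoint_left.1 (hdis i j hij) h1 h2
  have meet : ∀ j, ∃ u ∈ B j, u ∈ A := by
    intro j
    by_contra hj
    push Not at hj
    have hji : j ≠ i0 := by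
      rintro rfl
      obtain ⟨u, hu⟩ := (hconn j).1
      exact hj u hu (hi hu)
    obtain ⟨u, hu, v, hv, huv⟩ := hadj i0 j hji.symm
    obtain ⟨rfl, rfl⟩ := hcut u (hi hu) v (hj v hv) huv
    obtain ⟨k, hk1, hk2⟩ : ∃ k : Fin 5, k ≠ i0 ∧ k ≠ j :=
      (by decide : ∀ a b : Fin 5, ∃ k : Fin 5, k ≠ a ∧ k ≠ b) i0 j
    by_cases hk : ∃ w ∈ B k, w ∈ A
    · by_cases hk' : ∃ w ∈ B k, w ∉ A
      · exact dis _ _ hk1 u (cross hcut (hconn k) hk hk') hu
      · push Not at hk'
        obtain ⟨u', hu', v', hv', huv'⟩ := hadj k j hk2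
        obtain ⟨rfl, rfl⟩ := hcut u' (hk' u' hu') v' (hj v' hv') huv'
        exact dis _ _ hk1 _ hu' hu
    · push Not at hk
      obtain ⟨u', hu', v', hv', huv'⟩ := hadj i0 k hk1.symm
      obtain ⟨rfl, rfl⟩ := hcut u' (hi hu') v' (hk v' hv') huv'
      exact dis _ _ hk2 _ hv' hv
  refine ⟨fun j => B j ∩ A, ⟨fun j => ⟨?_, ?_⟩, ?_, ?_⟩, fun j => Finset.inter_subset_right⟩
  · obtain ⟨u, hu, huA⟩ := meet j
    exact ⟨u, Finset.mem_inter.2 ⟨hu, huA⟩⟩
  · intro P hP hne hneq
    have hPB : P ⊆ B j := hP.trans Finset.inter_subset_left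
    have hPA : P ⊆ A := hP.trans Finset.inter_subset_right
    by_cases hx : x ∈ P
    · obtain ⟨w, hw, hwP⟩ : ∃ w ∈ B j ∩ A, w ∉ P := by
        by_contra hcon
        push Not at hcon
        exact hneq (Finset.Subset.antisymm hP hcon)
      have hw' := Finset.mem_inter.1 hw
      obtain ⟨u, hu, v, hv, hvP, huv⟩ := (hconn j).2 (P ∪ (B j \ A))
        (Finset.union_subset hPB Finset.sdiff_subset)
        (hne.mono Finset.subset_union_left) (fun h => by
          have h1 : w ∈ P ∪ (B j \ A) := by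
            rw [h]
            exact hw'.1
          rcases Finset.mem_union.1 h1 with h2 | h2
          · exact hwP h2
          · exact (Finset.mem_sdiff.1 h2).2 hw'.2)
      have hvP1 : v ∉ P := fun h => hvP (Finset.mem_union_left _ h)
      have hvA : v ∈ A := by
        by_contra h
        exact hvP (Finset.mem_union_right _ (Finset.mem_sdiff.2 ⟨hv, h⟩))
      rcases Finset.mem_union.1 hu with h | h
      · exact ⟨u, h, v, Finset.mem_inter.2 ⟨hv, hvA⟩, hvP1, huv⟩
      · exfalso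
        have h2 := (hcut v hvA u (Finset.mem_sdiff.1 h).2 huv.symm).1
        rw [h2] at hvP1
        exact hvP1 hx
    · obtain ⟨u, hu, v, hv, hvP, huv⟩ := (hconn j).2 P hPB hne (fun h => by
        apply hneq
        apply Finset.Subset.antisymm hP
        show B j ∩ A ⊆ P
        rw [← h]
        exact Finset.inter_subset_left)
      have hvA : v ∈ A := by
        by_contra h
        apply hx
        rw [← (hcut u (hPA hu) v h huv).1]
        exact hu
      exact ⟨u, hu, v, Finset.mem_inter.2 ⟨hv, hvA⟩, hvP, huv⟩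
  · intro j k hjk
    exact (hdis j k hjk).mono Finset.inter_subset_left Finset.inter_subset_left
  · intro j k hjk
    obtain ⟨u, hu, v, hv, huv⟩ := hadj j k hjk
    by_cases hu' : u ∈ A <;> by_cases hv' : v ∈ A
    · exact ⟨u, Finset.mem_inter.2 ⟨hu, hu'⟩, v, Finset.mem_inter.2 ⟨hv, hv'⟩, huv⟩
    · exfalso
      have h1 := cross hcut (hconn k) (meet k) ⟨v, hv, hv'⟩
      rw [← (hcut u hu' v hv' huv).1] at h1
      exact dis _ _ hjk u hu h1
    · exfalso
      have h1 := cross hcut (hconn j) (meet j) ⟨u, hu, hu'⟩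
      rw [← (hcut v hv' u hu' huv.symm).1] at h1
      exact dis _ _ hjk v h1 hv
    · exfalso
      exact dis _ _ hjk x (cross hcut (hconn j) (meet j) ⟨u, hu, hu'⟩)
        (cross hcut (hconn k) (meet k) ⟨v, hv, hv'⟩)

end P512
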