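import Pool.Agent.Lib.P512.Trans
import Pool.Agent.Lib.P512.Join

/-!
# P512.SupB: joining two graphs by an edge

`subA A` is the embedding of `{v // v ∈ A}`.  Define `G.Adj u v` iff (both in `A` and `G1.Adj ⟨u,_⟩ ⟨v,_⟩`) or (both outside `A` and `G2.Adj ..`) or (`u = x` and `v = y`) or (`u = y` and `v = x`), for instance
`G = G1.map (subA A) ⊔ G2.map (subA Aᶜ) ⊔ SimpleGraph.fromEdgeSet {s(x, y)}`.
Then `G.comap (subA A) = G1`, `G.comap (subA Aᶜ) = G2`, and the only edge between `A` and the complement is `xy`.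
`Conn G A`, `Conn G Aᶜ`: `G1.Connected` gives `Conn G1 univ` (`conn_iff`, or directly), `conn_map`.  `G.Connected`: `conn_union` for `A`, `Aᶜ`, edge `xy`, then `conn_iff` for `univ` (`G.induce univ` and `G`: use an isomorphism, or prove connectedness from the cut form directly as in `conn_iff`).
No `K_5`: let `B` be a model.  Some `B i` does not contain `x` ... more precisely: at most one `B i` contains `x`; every other one is inside `A` or inside `Aᶜ` (a connected set that meets both contains `x`).  So there is `i0` with `B i0 ⊆ A` or `B i0 ⊆ Aᶜ`; `join_in` (for `A`, `x`, `y`, or for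
`Aᶜ`, `y`, `x`) gives `K5In G A` or `K5In G Aᶜ`, so `K5 G1` or `K5 G2` by `k5_comap`.
-/

namespace P512

open Finset

variable {V : Type*}

/-- the inclusion of a finite set -/
def subA (A : Finset V) : {v // v ∈ A} ↪ V := Function.Embedding.subtype (fun v => v ∈ A)

theorem conn_univ_iff [Fintype V] (G : SimpleGraph V) : Conn G Finset.univ ↔ G.Connected := by
  rw [conn_iff, Finset.coe_univ]
  exact (SimpleGraph.induceUnivIso G).connected_iff

namespace SupBAux

/-- two graphs joined by an edge -/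
def joinG (A : Finset V) (x y : V) (hxy : x ≠ y) (G1 : SimpleGraph {v // v ∈ A})
    (G2 : SimpleGraph {v // v ∉ A}) : SimpleGraph V where
  Adj u v := (∃ (hu : u ∈ A) (hv : v ∈ A), G1.Adj ⟨u, hu⟩ ⟨v, hv⟩) ∨
    (∃ (hu : u ∉ A) (hv : v ∉ A), G2.Adj ⟨u, hu⟩ ⟨v, hv⟩) ∨ (u = x ∧ v = y) ∨ (u = y ∧ v = x)
  symm := ⟨by
    rintro u v (⟨hu, hv, h⟩ | ⟨hu, hv, h⟩ | ⟨h, h'⟩ | ⟨h, h'⟩)
    · exact Or.inl ⟨hv, hu, h.symm⟩
    · exact Or.inr (Or.inl ⟨hv, hu, h.symm⟩)
    · exact Or.inr (Or.inr (Or.inr ⟨h', h⟩))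
    · exact Or.inr (Or.inr (Or.inl ⟨h', h⟩))⟩
  loopless := ⟨by
    rintro u (⟨hu, hv, h⟩ | ⟨hu, hv, h⟩ | ⟨h, h'⟩ | ⟨h, h'⟩)
    · exact h.ne rfl
    · exact h.ne rfl
    · exact hxy (h.symm.trans h')
    · exact hxy (h'.symm.trans h)⟩

end SupBAux

theorem joined [Fintype V] [DecidableEq V] (A : Finset V) (x y : V) (hx : x ∈ A) (hy : y ∉ A)
    (G1 : SimpleGraph {v // v ∈ A}) (G2 : SimpleGraph {v // v ∈ Aᶜ})
    (h1 : ¬ K5 G1 ∧ G1.Connected) (h2 : ¬ K5 G2 ∧ G2.Connected) :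
    ∃ G : SimpleGraph V, G.comap (subA A) = G1 ∧ G.comap (subA Aᶜ) = G2 ∧ G.Adj x y ∧
      (∀ u ∈ A, ∀ v, v ∉ A → G.Adj u v → u = x ∧ v = y) ∧ Conn G A ∧ Conn G Aᶜ ∧
      ¬ K5 G ∧ G.Connected := by
  classical
  have hxy : x ≠ y := fun h => hy (h ▸ hx)
  let e : {v // v ∈ Aᶜ} ≃ {v // v ∉ A} := Equiv.subtypeEquivRight (fun v => Finset.mem_compl)
  let G := SupBAux.joinG A x y hxy G1 (G2.comap e.symm)
  have c1 : G.comap (subA A) = G1 := by
    ext ⟨u, hu⟩ ⟨v, hv⟩
    constructor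
    · rintro (⟨_, _, h⟩ | ⟨h, _, _⟩ | ⟨_, h⟩ | ⟨h, _⟩)
      · exact h
      · exact absurd hu h
      · exact absurd ((show v = y from h) ▸ hv) hy
      · exact absurd ((show u = y from h) ▸ hu) hy
    · intro h
      exact Or.inl ⟨hu, hv, h⟩
  have c2 : G.comap (subA Aᶜ) = G2 := by
    ext ⟨u, hu⟩ ⟨v, hv⟩
    have hu' := Finset.mem_compl.1 hu
    have hv' := Finset.mem_compl.1 hv
    constructor
    · rintro (⟨h, _, _⟩ | ⟨_, _, h⟩ | ⟨h, _⟩ | ⟨_, h⟩)
      · exact absurd h hu'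
      · exact h
      · exact absurd ((show u = x from h) ▸ hx) hu'
      · exact absurd ((show v = x from h) ▸ hx) hv'
    · intro h
      exact Or.inr (Or.inl ⟨hu', hv', h⟩)
  have hadj : G.Adj x y := Or.inr (Or.inr (Or.inl ⟨rfl, rfl⟩))
  have hcut : ∀ u ∈ A, ∀ v, v ∉ A → G.Adj u v → u = x ∧ v = y := by
    rintro u hu v hv (⟨_, h, _⟩ | ⟨h, _, _⟩ | h | ⟨h, _⟩)
    · exact absurd h hv
    · exact absurd hu h
    · exact h
    · exact absurd (h ▸ hu) hy
  have hcut' : ∀ u ∈ Aᶜ, ∀ v, v ∉ Aᶜ → G.Adj u v → u = y ∧ v = x := by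
    intro u hu v hv h
    rw [Finset.mem_compl] at hu
    rw [Finset.mem_compl, not_not] at hv
    exact (hcut v hv u hu h.symm).symm
  have m1 : Finset.univ.map (subA A) = A := by
    ext v
    simp only [Finset.mem_map, Finset.mem_univ, true_and]
    constructor
    · rintro ⟨⟨w, hw⟩, rfl⟩
      exact hw
    · intro hv
      exact ⟨⟨v, hv⟩, rfl⟩
  have m2 : Finset.univ.map (subA Aᶜ) = Aᶜ := by
    ext v
    simp only [Finset.mem_map, Finset.mem_univ, true_and]
    constructor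
    · rintro ⟨⟨w, hw⟩, rfl⟩
      exact hw
    · intro hv
      exact ⟨⟨v, hv⟩, rfl⟩
  have k1 : Conn G A := by
    have h := (conn_map G (subA A) Finset.univ).1 (by
      rw [c1]; exact (conn_univ_iff G1).2 h1.2)
    rwa [m1] at h
  have k2 : Conn G Aᶜ := by
    have h := (conn_map G (subA Aᶜ) Finset.univ).1 (by
      rw [c2]; exact (conn_univ_iff G2).2 h2.2)
    rwa [m2] at h
  refine ⟨G, c1, c2, hadj, hcut, k1, k2, ?_, ?_⟩
  · rintro ⟨B, hB⟩
    have hone : ∃ i : Fin 5, x ∉ B i := by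
      by_contra hcon
      push Not at hcon
      exact Finset.disjoint_left.1 (hB.2.1 0 1 (by decide)) (hcon 0) (hcon 1)
    obtain ⟨i0, hi0⟩ := hone
    by_cases hA : B i0 ⊆ A
    · have h3 := join_in G A x y hcut B hB i0 hA
      rw [← m1] at h3
      have h4 := (k5_comap G (subA A)).2 h3
      rw [c1] at h4
      exact h1.1 h4
    · have hA' : B i0 ⊆ Aᶜ := by
        intro z hz
        rw [Finset.mem_compl]
        intro hzA
        obtain ⟨u, hu, v, hv, hvn, huv⟩ := (hB.1 i0).2 (B i0 ∩ A) Finset.inter_subset_left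
          ⟨z, Finset.mem_inter.2 ⟨hz, hzA⟩⟩ (fun he => hA (by
            intro t ht
            rw [← he] at ht
            exact (Finset.mem_inter.1 ht).2))
        have hu' := Finset.mem_inter.1 hu
        have hvA : v ∉ A := fun h => hvn (Finset.mem_inter.2 ⟨hv, h⟩)
        have h3 := (hcut u hu'.2 v hvA huv).1
        exact hi0 (h3 ▸ hu'.1)
      have h3 := join_in G Aᶜ y x hcut' B hB i0 hA'
      rw [← m2] at h3
      have h4 := (k5_comap G (subA Aᶜ)).2 h3
      rw [c2] at h4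
      exact h2.1 h4
  · rw [← conn_univ_iff, ← Finset.union_compl A]
    exact conn_union k1 k2 (Or.inr ⟨x, hx, y, Finset.mem_compl.2 hy, hadj⟩)

end P512
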