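import Pool.Agent.Lib.P512.ConnB

/-!
# P512.Trans: transport along embeddings and equivalences

`conn_map`: unfold `Conn`.  Left to right: given `P ⊆ S.map f`, take `P' = S.filter (fun v => f v ∈ P)`.  Right to left: given
`P ⊆ S`, take `P.map f` (`Finset.map_subset_map`, `Finset.mem_map`, `f.injective`).
`k5_comap`: left to right: the branch sets are `(B i).map f`.  Right to left: `B i ⊆ univ.map f`, take
`(B i).preimage`, or `univ.filter (fun w => f w ∈ B i)`; its `map f` is `B i`; use `conn_map`.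
`k5_iso`, `connected_iso`: special cases (an equivalence).
`card_g`, `card_c`: choose `e : W ≃ Fin (Fintype.card W)` and transport graphs by `G ↦ G.comap e.symm`
(`Equiv.simpleGraph` in Mathlib), `Nat.card_congr (Equiv.subtypeEquiv ..)`.
-/

namespace P512

open Finset

variable {V W : Type*}

theorem conn_map (G : SimpleGraph V) (f : W ↪ V) (S : Finset W) :
    Conn (G.comap f) S ↔ Conn G (S.map f) := by
  classical
  constructor
  · rintro ⟨hne, h⟩
    refine ⟨hne.map, fun P hP hPn hPS => ?_⟩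
    obtain ⟨u, hu, v, hv, hvP, huv⟩ := h (S.filter fun w => f w ∈ P) (filter_subset _ _) (by
      obtain ⟨p, hp⟩ := hPn
      obtain ⟨w, hw, rfl⟩ := mem_map.1 (hP hp)
      exact ⟨w, mem_filter.2 ⟨hw, hp⟩⟩) (by
      intro he
      apply hPS
      refine Subset.antisymm hP fun x hx => ?_
      obtain ⟨w, hw, rfl⟩ := mem_map.1 hx
      rw [← he] at hw
      exact (mem_filter.1 hw).2)
    refine ⟨f u, (mem_filter.1 hu).2, f v, mem_map_of_mem f hv, fun hc => ?_, huv⟩
    exact hvP (mem_filter.2 ⟨hv, hc⟩)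
  · rintro ⟨hne, h⟩
    refine ⟨map_nonempty.1 hne, fun P hP hPn hPS => ?_⟩
    obtain ⟨u, hu, v, hv, hvP, huv⟩ := h (P.map f) (map_subset_map.2 hP) hPn.map (by
      intro he
      exact hPS (map_injective f he))
    obtain ⟨u', hu', rfl⟩ := mem_map.1 hu
    obtain ⟨v', hv', rfl⟩ := mem_map.1 hv
    refine ⟨u', hu', v', hv', fun hc => hvP (mem_map_of_mem f hc), huv⟩

theorem k5_comap [Fintype W] (G : SimpleGraph V) (f : W ↪ V) :
    K5 (G.comap f) ↔ K5In G (Finset.univ.map f) := by
  classical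
  constructor
  · rintro ⟨B, h1, h2, h3⟩
    refine ⟨fun i => (B i).map f, ⟨fun i => (conn_map G f (B i)).1 (h1 i), fun i j hij => ?_,
      fun i j hij => ?_⟩, fun i => map_subset_map.2 (subset_univ _)⟩
    · exact (disjoint_map f).2 (h2 i j hij)
    · obtain ⟨u, hu, v, hv, huv⟩ := h3 i j hij
      exact ⟨f u, mem_map_of_mem f hu, f v, mem_map_of_mem f hv, huv⟩
  · rintro ⟨B, ⟨h1, h2, h3⟩, hs⟩
    have hB : ∀ i, (Finset.univ.filter fun w => f w ∈ B i).map f = B i := by
      intro i
      ext x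
      constructor
      · intro hx
        obtain ⟨w, hw, rfl⟩ := mem_map.1 hx
        exact (mem_filter.1 hw).2
      · intro hx
        obtain ⟨w, _, rfl⟩ := mem_map.1 (hs i hx)
        exact mem_map_of_mem f (mem_filter.2 ⟨mem_univ _, hx⟩)
    refine ⟨fun i => Finset.univ.filter fun w => f w ∈ B i, fun i => ?_, fun i j hij => ?_,
      fun i j hij => ?_⟩
    · rw [conn_map, hB]
      exact h1 i
    · rw [← disjoint_map f, hB, hB]
      exact h2 i j hij
    · obtain ⟨u, hu, v, hv, huv⟩ := h3 i j hij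
      obtain ⟨u', _, rfl⟩ := mem_map.1 (hs i hu)
      obtain ⟨v', _, rfl⟩ := mem_map.1 (hs j hv)
      exact ⟨u', mem_filter.2 ⟨mem_univ _, hu⟩, v', mem_filter.2 ⟨mem_univ _, hv⟩, huv⟩

namespace TransAux

theorem k5_equiv [Fintype W] [Fintype V] (G : SimpleGraph V) (e : W ≃ V) :
    K5 (G.comap e) ↔ K5 G := by
  have h := k5_comap G e.toEmbedding
  have h2 : K5In G (Finset.univ.map e.toEmbedding) ↔ K5 G := by
    rw [map_univ_equiv]
    exact ⟨fun ⟨B, hB, _⟩ => ⟨B, hB⟩, fun ⟨B, hB⟩ => ⟨B, hB, fun i => subset_univ _⟩⟩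
  exact h.trans h2

end TransAux

theorem card_g (W : Type*) [Fintype W] :
    Nat.card {G : SimpleGraph W // ¬ K5 G} = g (Fintype.card W) := by
  refine Nat.card_congr (Equiv.subtypeEquiv (Fintype.equivFin W).simpleGraph fun G => ?_)
  rw [not_iff_not]
  exact (TransAux.k5_equiv G (Fintype.equivFin W).symm).symm

theorem card_c (W : Type*) [Fintype W] :
    Nat.card {G : SimpleGraph W // ¬ K5 G ∧ G.Connected} = c (Fintype.card W) := by
  refine Nat.card_congr (Equiv.subtypeEquiv (Fintype.equivFin W).simpleGraph fun G => ?_)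
  refine and_congr (not_congr ?_) ?_
  · exact (TransAux.k5_equiv G (Fintype.equivFin W).symm).symm
  · exact (SimpleGraph.Iso.comap (Fintype.equivFin W).symm G).connected_iff.symm

end P512
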