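import Pool.Agent.Lib.P512.SupB

/-!
# P512.Apex: `g n ≤ c (n + 1)`

`V = Fin n`, `W = Option V`.  For `G` on `V` let `rep K = Quot.out K` for a connected component `K` of `G` (`SimpleGraph.ConnectedComponent`), and let `G'` be the graph on `W` with `G'.Adj (some u) (some v)` iff `G.Adj u v` and
`G'.Adj none (some v)` iff `v = rep (G.connectedComponentMk v)` (and symmetric).  `G'.comap some = G`, so `G ↦ G'` is injective.  `G'` is connected: every `some v` is reachable from `some (rep ..)` and this one is adjacent to `none`.
`G'` has no `K_5` minor if `G` has none: let `B` be a model in `G'`.  If `none` is in no `B i` then all `B i` are inside `univ.map Function.Embedding.some` and `k5_comap` gives `K5 G`.  Otherwise `none ∈ B i`; take `j ≠ i` and `some v ∈ B j`; let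
`A = {some u : u in the component of v}`.  The only edge leaving `A` is from `x = some (rep ..)` to `y = none`.  `B j ⊆ A` by `conn_subset` (`X = {none}`).  `join_in` gives `K5In G' A`, so `K5In G' (univ.map some)`, so `K5 G`.
Then `g n ≤ Nat.card {G : SimpleGraph (Option (Fin n)) // ¬ K5 G ∧ G.Connected} = c (n + 1)` (`card_c`, `Fintype.card_option`).
-/

namespace P512

open Finset

namespace ApexAux

variable {V : Type}

/-- a representative of a component -/
noncomputable def rp (G : SimpleGraph V) (K : G.ConnectedComponent) : V := Quot.out K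

theorem mk_rp (G : SimpleGraph V) (K : G.ConnectedComponent) :
    G.connectedComponentMk (rp G K) = K := Quot.out_eq K

/-- adjacency of the graph with an apex joined to one vertex of each component -/
def adjO (G : SimpleGraph V) : Option V → Option V → Prop
  | some u, some v => G.Adj u v
  | none, some v => v = rp G (G.connectedComponentMk v)
  | some v, none => v = rp G (G.connectedComponentMk v)
  | none, none => False

/-- the graph with an apex joined to one vertex of each component -/
def apx (G : SimpleGraph V) : SimpleGraph (Option V) where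
  Adj := adjO G
  symm := by
    constructor
    rintro (_ | u) (_ | v) h
    · exact h
    · exact h
    · exact h
    · exact SimpleGraph.Adj.symm (G := G) h
  loopless := by
    constructor
    rintro (_ | u) h
    · exact h
    · exact G.irrefl h

theorem apx_comap (G : SimpleGraph V) : (apx G).comap Function.Embedding.some = G := by
  ext u v
  exact Iff.rfl

theorem apx_connected (G : SimpleGraph V) : (apx G).Connected := by
  have h1 : ∀ x : Option V, (apx G).Reachable x none := by
    rintro (_ | v)
    · exact SimpleGraph.Reachable.refl _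
    · have h2 : G.Reachable v (rp G (G.connectedComponentMk v)) :=
        SimpleGraph.ConnectedComponent.exact (mk_rp G _).symm
      let f : G →g apx G := ⟨fun v => some v, fun {a b} h => h⟩
      have h3 : (apx G).Reachable (some v) (some (rp G (G.connectedComponentMk v))) := h2.map f
      refine h3.trans ?_
      apply SimpleGraph.Adj.reachable
      show rp G (G.connectedComponentMk v) =
        rp G (G.connectedComponentMk (rp G (G.connectedComponentMk v)))
      rw [mk_rp]
  have : Nonempty (Option V) := ⟨none⟩
  exact ⟨fun x y => (h1 x).trans (h1 y).symm⟩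

theorem apx_k5 [Fintype V] [DecidableEq V] (G : SimpleGraph V) (h : K5 (apx G)) : K5 G := by
  classical
  have hfin : K5In (apx G) (Finset.univ.map Function.Embedding.some) → K5 G := by
    intro h1
    have h2 := (k5_comap (apx G) (Function.Embedding.some : V ↪ Option V)).2 h1
    rw [apx_comap] at h2
    exact h2
  obtain ⟨B, hB⟩ := h
  have hmem : ∀ x : Option V, x ≠ none → x ∈ Finset.univ.map
      (Function.Embedding.some : V ↪ Option V) := by
    rintro (_ | v) hx
    · exact absurd rfl hx
    · rw [Finset.mem_map]
      exact ⟨v, Finset.mem_univ v, rfl⟩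
  by_cases hn : ∃ i, none ∈ B i
  · obtain ⟨i, hi⟩ := hn
    obtain ⟨j, hj⟩ := exists_ne i
    obtain ⟨x0, hx0⟩ := (hB.1 j).1
    have hnj : ∀ v ∈ B j, v ≠ none := by
      intro v hv hvn
      rw [hvn] at hv
      exact Finset.disjoint_left.1 (hB.2.1 j i hj) hv hi
    obtain ⟨v, rfl⟩ : ∃ v, x0 = some v := Option.ne_none_iff_exists'.1 (hnj x0 hx0)
    let A : Finset (Option V) := Finset.univ.filter (fun w : Option V =>
      ∃ u, w = some u ∧ G.connectedComponentMk u = G.connectedComponentMk v)
    have hA : ∀ w, w ∈ A ↔
        ∃ u, w = some u ∧ G.connectedComponentMk u = G.connectedComponentMk v := by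
      intro w
      simp [A]
    have hcut : ∀ u ∈ A, ∀ w, w ∉ A → (apx G).Adj u w →
        u = some (rp G (G.connectedComponentMk v)) ∧ w = none := by
      intro u hu w hw hadj
      obtain ⟨u', rfl, hu'⟩ := (hA u).1 hu
      rcases w with _ | w'
      · have h1 : u' = rp G (G.connectedComponentMk u') := hadj
        rw [hu'] at h1
        exact ⟨congrArg some h1, rfl⟩
      · exfalso
        apply hw
        rw [hA]
        have h1 : G.Adj u' w' := hadj
        refine ⟨w', rfl, ?_⟩
        rw [← hu']
        exact (SimpleGraph.ConnectedComponent.sound h1.reachable).symm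
    have hsub : B j ⊆ A := by
      apply conn_subset (X := {none}) (hB.1 j)
      · intro u hu w hadj
        by_cases hw : w ∈ A
        · exact Or.inl hw
        · rw [(hcut u hu w hw hadj).2]
          exact Or.inr (Finset.mem_singleton_self _)
      · intro w hw
        rw [Finset.mem_singleton]
        exact hnj w hw
      · exact ⟨some v, hx0, (hA _).2 ⟨v, rfl, rfl⟩⟩
    obtain ⟨B', hB', hB'A⟩ := join_in (apx G) A _ _ hcut B hB j hsub
    apply hfin
    refine ⟨B', hB', fun i x hx => hmem x ?_⟩
    obtain ⟨u, hu, -⟩ := (hA x).1 (hB'A i hx)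
    rw [hu]
    simp
  · push Not at hn
    apply hfin
    refine ⟨B, hB, fun i x hx => hmem x ?_⟩
    intro hxn
    rw [hxn] at hx
    exact hn i hx

end ApexAux

theorem g_le (n : ℕ) : g n ≤ c (n + 1) := by
  have h1 : g n ≤ Nat.card {G : SimpleGraph (Option (Fin n)) // ¬ K5 G ∧ G.Connected} := by
    unfold g
    apply Nat.card_le_card_of_injective
      (fun x : {G : SimpleGraph (Fin n) // ¬ K5 G} =>
        (⟨ApexAux.apx x.1, fun h => x.2 (ApexAux.apx_k5 x.1 h), ApexAux.apx_connected x.1⟩ :
          {G : SimpleGraph (Option (Fin n)) // ¬ K5 G ∧ G.Connected}))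
    intro x y hxy
    have h2 : ApexAux.apx x.1 = ApexAux.apx y.1 := by
      have h3 := congrArg Subtype.val hxy
      exact h3
    apply Subtype.ext
    rw [← ApexAux.apx_comap x.1, ← ApexAux.apx_comap y.1, h2]
  rw [card_c (Option (Fin n)), Fintype.card_option, Fintype.card_fin] at h1
  exact h1

theorem c_le (n : ℕ) : c n ≤ g n := by
  unfold c g
  apply Nat.card_le_card_of_injective
    (fun x : {G : SimpleGraph (Fin n) // ¬ K5 G ∧ G.Connected} =>
      (⟨x.1, x.2.1⟩ : {G : SimpleGraph (Fin n) // ¬ K5 G}))
  intro x y hxy
  have h2 := congrArg Subtype.val hxy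
  exact Subtype.ext h2

end P512
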