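import Mathlib

/-!
# P512.Defs: connected sets, `K_5` minors, the counting sequences
-/

namespace P512

open Finset

variable {V : Type*}

/-- The finite set `S` is connected in `G` (cut form). -/
def Conn (G : SimpleGraph V) (S : Finset V) : Prop :=
  S.Nonempty ∧ ∀ P : Finset V, P ⊆ S → P.Nonempty → P ≠ S →
    ∃ u ∈ P, ∃ v ∈ S, v ∉ P ∧ G.Adj u v

/-- A model of `K_5`: five disjoint connected sets, pairwise joined by edges. -/
def Model (G : SimpleGraph V) (B : Fin 5 → Finset V) : Prop :=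
  (∀ i, Conn G (B i)) ∧ (∀ i j, i ≠ j → Disjoint (B i) (B j)) ∧
    (∀ i j, i ≠ j → ∃ u ∈ B i, ∃ v ∈ B j, G.Adj u v)

/-- `G` has a `K_5` minor. -/
def K5 (G : SimpleGraph V) : Prop := ∃ B, Model G B

/-- `G` has a `K_5` minor with all branch sets inside `U`. -/
def K5In (G : SimpleGraph V) (U : Finset V) : Prop := ∃ B, Model G B ∧ ∀ i, B i ⊆ U

/-- The number of labelled graphs on `n` vertices without a `K_5` minor. -/
noncomputable def g (n : ℕ) : ℕ := Nat.card {G : SimpleGraph (Fin n) // ¬ K5 G}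

/-- The number of connected labelled graphs on `n` vertices without a `K_5` minor. -/
noncomputable def c (n : ℕ) : ℕ := Nat.card {G : SimpleGraph (Fin n) // ¬ K5 G ∧ G.Connected}

/-- The number of rooted connected graphs, divided by `n!`. -/
noncomputable def h (n : ℕ) : ℝ := n * (c n : ℝ) / n.factorial

/-- The hypotheses of the analytic part. -/
structure Hyp (L : ℕ → ℝ) : Prop where
  one : L 1 = 0
  sup : ∀ a b : ℕ, 1 ≤ a → 1 ≤ b → L a + L b ≤ L (a + b)
  triv : ∀ n : ℕ, 1 ≤ n → L n ≤ (n : ℝ) ^ 2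
  rcr : ∀ N : ℕ, 2 ≤ N → ∃ a b : ℕ, N < 3 * a ∧ N < 3 * b ∧ N ≤ a + b ∧
    ((a + b : ℕ) : ℝ) ≤ N + 16 * Real.sqrt N ∧
    L N ≤ L a + L b + 40 * Real.sqrt N * Real.log N

end P512
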