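import Pool.Agent.Lib.P512.A1

/-!
# P512.A2: the limit

`-L` is subadditive (up to the value at `0`): Fekete.  Mathlib: `Subadditive`, `Subadditive.tendsto_lim`, `Subadditive.lim_le_div`.  To apply it put `u n = - L n` for `n ≥ 1` and `u 0 = 0` (then `u` is subadditive: cases `m = 0`, `n = 0` are trivial).
`BddBelow (range fun n => u n / n)`: by `linear_bound` (`-300000` is a lower bound; for `n = 0` the value is `0`).  `th = - lim`.  `0 ≤ th`: `L n ≥ n * L 1 = 0`.  `th ≤ 300000`: limit of `L n / n ≤ 300000`.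
-/

namespace P512

open Filter Topology

namespace A2Aux

noncomputable def u (L : ℕ → ℝ) (n : ℕ) : ℝ := if n = 0 then 0 else - L n

theorem u_pos (L : ℕ → ℝ) {n : ℕ} (h : 1 ≤ n) : u L n = - L n := by
  unfold u
  rw [if_neg (by omega)]

theorem u_zero (L : ℕ → ℝ) : u L 0 = 0 := by
  unfold u
  rw [if_pos rfl]

theorem subadd {L : ℕ → ℝ} (hL : Hyp L) : Subadditive (u L) := by
  intro m n
  rcases Nat.eq_zero_or_pos m with rfl | hm
  · rw [Nat.zero_add, u_zero, zero_add]
  rcases Nat.eq_zero_or_pos n with rfl | hn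
  · rw [Nat.add_zero, u_zero, add_zero]
  rw [u_pos L hm, u_pos L hn, u_pos L (by omega)]
  have := hL.sup m n hm hn
  linarith

theorem bdd {L : ℕ → ℝ} (hL : Hyp L) : BddBelow (Set.range fun n : ℕ => u L n / n) := by
  refine ⟨-300000, ?_⟩
  rintro x ⟨n, rfl⟩
  rcases Nat.eq_zero_or_pos n with rfl | hn
  · simp
  · have hn' : (0 : ℝ) < n := by exact_mod_cast hn
    show -300000 ≤ u L n / n
    rw [u_pos L hn, le_div_iff₀ hn']
    have := linear_bound hL n hn
    linarith

theorem nonneg {L : ℕ → ℝ} (hL : Hyp L) : ∀ n : ℕ, 1 ≤ n → 0 ≤ L n := by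
  intro n hn
  induction n, hn using Nat.le_induction with
  | base => rw [hL.one]
  | succ n hn ih =>
    have := hL.sup n 1 hn le_rfl
    rw [hL.one] at this
    linarith

end A2Aux

open A2Aux

theorem limit_exists {L : ℕ → ℝ} (hL : Hyp L) : ∃ th : ℝ, 0 ≤ th ∧ th ≤ 300000 ∧
    Tendsto (fun n : ℕ => L n / n) atTop (𝓝 th) ∧ (∀ n : ℕ, 1 ≤ n → L n ≤ th * n) ∧
    ∀ n : ℕ, 1 ≤ n → 0 ≤ L n := by
  have hs := subadd hL
  have hb := bdd hL
  have hlim := hs.tendsto_lim hb
  have h1 : ∀ n : ℕ, 1 ≤ n → L n ≤ -hs.lim * n := by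
    intro n hn
    have h := hs.lim_le_div hb (n := n) (by omega)
    have hn' : (0 : ℝ) < n := by exact_mod_cast hn
    rw [u_pos L hn, le_div_iff₀ hn'] at h
    linarith
  have h2 : Tendsto (fun n : ℕ => L n / n) atTop (𝓝 (-hs.lim)) := by
    have h3 := hlim.neg
    refine h3.congr' ?_
    filter_upwards [eventually_ge_atTop 1] with n hn
    rw [u_pos L hn]
    ring
  refine ⟨-hs.lim, ?_, ?_, h2, h1, nonneg hL⟩
  · refine ge_of_tendsto h2 ?_
    filter_upwards [eventually_ge_atTop 1] with n hn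
    exact div_nonneg (nonneg hL n hn) (Nat.cast_nonneg n)
  · refine le_of_tendsto h2 ?_
    filter_upwards [eventually_ge_atTop 1] with n hn
    have hn' : (0 : ℝ) < n := by exact_mod_cast hn
    rw [div_le_iff₀ hn']
    exact linear_bound hL n hn

end P512
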