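import Pool.Agent.Lib.P512.A3

/-!
# P512.A4: the lower bound for every `n`

Let `K = 598 * th + 1600`.  Claim: for all `n ≥ 1`: `th * n - th - K * (sqrt n * log n) ≤ L n`, by strong induction.
`n < 40000`: `0 ≤ L n`; for `n = 1` equality of both sides with `0`.  For `n ≥ 2`: `th * n ≤ K sqrt n log n`, because `sqrt n ≤ 200` and `log n ≥ log 2 ≥ 0.69`: `th * n = th * sqrt n * sqrt n ≤ 200 th sqrt n ≤ (200 / 0.69) th sqrt n log n`.
`n ≥ 40000`: `good_value` gives `m`.  If `m = n`: fine (`80 th + 201 ≤ K`).  Otherwise `L n ≥ L m + L (n - m)` and by induction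
`L n ≥ th m - (80 th + 201) sqrt n log n + th (n - m) - th - K sqrt (n-m) log (n-m)`, with `n - m ≤ 3n/4`, `sqrt (n - m) ≤ 0.8661 sqrt n`, `log (n-m) ≤ log n`; and `80 th + 201 + 0.8661 K ≤ K`:
`0.1339 * 598 = 80.07`, `0.1339 * 1600 = 214.2`.
Finally `th ≤ 2 * th * (sqrt n * log n)` for `n ≥ 2` (`sqrt 2 * log 2 ≥ 0.97`).
-/

namespace P512

open Filter Topology

namespace A4Aux

theorem claim {L : ℕ → ℝ} (hL : Hyp L) {th : ℝ} (h0 : 0 ≤ th)
    (hlim : Tendsto (fun n : ℕ => L n / n) atTop (𝓝 th)) (hpos : ∀ n : ℕ, 1 ≤ n → 0 ≤ L n) :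
    ∀ n : ℕ, 1 ≤ n →
      th * n - th - (598 * th + 1600) * (Real.sqrt n * Real.log n) ≤ L n := by
  intro n
  induction n using Nat.strong_induction_on with
  | _ n ih =>
    intro hn1
    have hs0 : 0 ≤ Real.sqrt n := Real.sqrt_nonneg _
    have hl0 : 0 ≤ Real.log n := Real.log_natCast_nonneg n
    have hsl : 0 ≤ Real.sqrt n * Real.log n := mul_nonneg hs0 hl0
    have hsq : Real.sqrt n * Real.sqrt n = n := Real.mul_self_sqrt (Nat.cast_nonneg n)
    by_cases hbig : 40000 ≤ n
    · obtain ⟨m, hm1, hm2, hm3⟩ := good_value hL h0 hlim n hbig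
      rcases Nat.lt_or_ge m n with hlt | hge
      · have hm0 : 1 ≤ m := by omega
        obtain ⟨b, rfl⟩ : ∃ b, n = m + b := ⟨n - m, by omega⟩
        have hb0 : 1 ≤ b := by omega
        have hb := ih b (by omega) hb0
        have hsup := hL.sup m b hm0 hb0
        have hbs0 : 0 ≤ Real.sqrt b := Real.sqrt_nonneg _
        have hbl0 : 0 ≤ Real.log b := Real.log_natCast_nonneg b
        have hbn : (b : ℝ) ≤ 3 / 4 * ((m + b : ℕ) : ℝ) := by
          have : 4 * b ≤ 3 * (m + b) := by omega
          have h' : (4 : ℝ) * b ≤ 3 * ((m + b : ℕ) : ℝ) := by exact_mod_cast this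
          linarith
        have h1 : Real.sqrt b ≤ 0.8661 * Real.sqrt ((m + b : ℕ) : ℝ) := by
          apply Real.sqrt_le_iff.2
          refine ⟨by positivity, ?_⟩
          have h2 : (0.8661 * Real.sqrt ((m + b : ℕ) : ℝ)) ^ 2 =
              0.8661 ^ 2 * ((m + b : ℕ) : ℝ) := by
            rw [mul_pow, sq (Real.sqrt _), hsq]
          rw [h2]
          have h3 : (0 : ℝ) ≤ ((m + b : ℕ) : ℝ) := Nat.cast_nonneg _
          nlinarith
        have h2 : Real.log b ≤ Real.log ((m + b : ℕ) : ℝ) := by
          apply Real.log_le_log (by exact_mod_cast hb0)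
          exact_mod_cast Nat.le_add_left b m
        have h3 : Real.sqrt b * Real.log b ≤
            0.8661 * (Real.sqrt ((m + b : ℕ) : ℝ) * Real.log ((m + b : ℕ) : ℝ)) := by
          calc Real.sqrt b * Real.log b ≤
              (0.8661 * Real.sqrt ((m + b : ℕ) : ℝ)) * Real.log ((m + b : ℕ) : ℝ) :=
                mul_le_mul h1 h2 hbl0 (by positivity)
            _ = _ := by ring
        set P := Real.sqrt ((m + b : ℕ) : ℝ) * Real.log ((m + b : ℕ) : ℝ) with hP
        have h4 : (598 * th + 1600) * (Real.sqrt b * Real.log b) ≤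
            (598 * th + 1600) * (0.8661 * P) :=
          mul_le_mul_of_nonneg_left h3 (by linarith)
        have h5 : (80 * th + 201 + (598 * th + 1600) * 0.8661) * P ≤ (598 * th + 1600) * P := by
          apply mul_le_mul_of_nonneg_right _ hsl
          linarith
        have h6 : (((m + b : ℕ) : ℝ)) = (m : ℝ) + b := by push_cast; ring
        have h7 : th * ((m + b : ℕ) : ℝ) = th * m + th * b := by rw [h6]; ring
        rw [h7]
        nlinarith
      · have hmn : m = n := le_antisymm hm2 hge
        subst hmn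
        have h5 : (80 * th + 201) * (Real.sqrt m * Real.log m) ≤
            (598 * th + 1600) * (Real.sqrt m * Real.log m) := by
          apply mul_le_mul_of_nonneg_right _ hsl
          linarith
        linarith
    · rcases Nat.lt_or_ge n 2 with h2 | h2
      · have : n = 1 := by omega
        subst this
        rw [hL.one]
        simp
      · have h3 : Real.sqrt n ≤ 200 := by
          apply Real.sqrt_le_iff.2
          refine ⟨by norm_num, ?_⟩
          have : (n : ℝ) ≤ 40000 := by exact_mod_cast (by omega : n ≤ 40000)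
          norm_num
          linarith
        have h4 : (0.69 : ℝ) ≤ Real.log n := by
          have h5 : Real.log 2 ≤ Real.log n := Real.log_le_log (by norm_num) (by exact_mod_cast h2)
          have := Real.log_two_gt_d9
          linarith
        have h5 : th * n ≤ 200 * (th * Real.sqrt n) := by
          have h6 : th * n = th * Real.sqrt n * Real.sqrt n := by rw [mul_assoc, hsq]
          rw [h6]
          have h7 : 0 ≤ th * Real.sqrt n := mul_nonneg h0 hs0
          nlinarith
        have h6 : 598 * (th * Real.sqrt n) * 0.69 ≤ (598 * th + 1600) * (Real.sqrt n * Real.log n) := by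
          have h7 : 0 ≤ th * Real.sqrt n := mul_nonneg h0 hs0
          have h8 : (th * Real.sqrt n) * 0.69 ≤ (th * Real.sqrt n) * Real.log n :=
            mul_le_mul_of_nonneg_left h4 h7
          nlinarith
        have h7 : 0 ≤ th * Real.sqrt n := mul_nonneg h0 hs0
        have := hpos n hn1
        nlinarith

end A4Aux

theorem lower_bound {L : ℕ → ℝ} (hL : Hyp L) {th : ℝ} (h0 : 0 ≤ th)
    (hlim : Tendsto (fun n : ℕ => L n / n) atTop (𝓝 th)) (hpos : ∀ n : ℕ, 1 ≤ n → 0 ≤ L n)
    (n : ℕ) (hn : 2 ≤ n) :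
    th * n - (600 * th + 1600) * (Real.sqrt n * Real.log n) ≤ L n := by
  have h1 := A4Aux.claim hL h0 hlim hpos n (by omega)
  have h2 : (1 : ℝ) ≤ Real.sqrt n := by
    rw [Real.one_le_sqrt]
    exact_mod_cast (by omega : 1 ≤ n)
  have h3 : (1 / 2 : ℝ) ≤ Real.log n := by
    have h5 : Real.log 2 ≤ Real.log n := Real.log_le_log (by norm_num) (by exact_mod_cast hn)
    have := Real.log_two_gt_d9
    linarith
  have h4 : (1 / 2 : ℝ) ≤ Real.sqrt n * Real.log n := by nlinarith
  have h5 : th ≤ 2 * th * (Real.sqrt n * Real.log n) := by nlinarith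
  nlinarith

end P512
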