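import Pool.Agent.Lib.P512.LogRec
import Pool.Agent.Lib.P512.A2
import Pool.Agent.Lib.P512.A4

/-!
# P512.Final: the theorem
-/

namespace P512

open Filter Topology

/-- `H` is a minor of `G`: there are disjoint connected branch sets, one for each vertex of `H`,
joined by an edge of `G` whenever the vertices are adjacent in `H`. -/
def IsMinor {W V : Type*} (H : SimpleGraph W) (G : SimpleGraph V) : Prop :=
  ∃ B : W → Set V, (∀ i, (G.induce (B i)).Connected) ∧ (∀ i j, i ≠ j → Disjoint (B i) (B j)) ∧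
    ∀ i j, H.Adj i j → ∃ u ∈ B i, ∃ v ∈ B j, G.Adj u v

/-- the number of labelled graphs on `n` vertices without a `K_5` minor -/
noncomputable def numG (n : ℕ) : ℕ :=
  Nat.card {G : SimpleGraph (Fin n) // ¬ IsMinor (⊤ : SimpleGraph (Fin 5)) G}

/-- the number of connected labelled graphs on `n` vertices without a `K_5` minor -/
noncomputable def numC (n : ℕ) : ℕ :=
  Nat.card {G : SimpleGraph (Fin n) // ¬ IsMinor (⊤ : SimpleGraph (Fin 5)) G ∧ G.Connected}

theorem isMinor_iff {V : Type*} [Finite V] (G : SimpleGraph V) :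
    IsMinor (⊤ : SimpleGraph (Fin 5)) G ↔ K5 G := by
  classical
  have := Fintype.ofFinite V
  constructor
  · rintro ⟨B, h1, h2, h3⟩
    refine ⟨fun i => (B i).toFinset, fun i => ?_, fun i j hij => ?_, fun i j hij => ?_⟩
    · rw [conn_iff, Set.coe_toFinset]
      exact h1 i
    · rw [Set.disjoint_toFinset]
      exact h2 i j hij
    · obtain ⟨u, hu, v, hv, h⟩ := h3 i j hij
      exact ⟨u, by simpa using hu, v, by simpa using hv, h⟩
  · rintro ⟨B, h1, h2, h3⟩
    refine ⟨fun i => (B i : Set V), fun i => (conn_iff G (B i)).1 (h1 i), fun i j hij => ?_,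
      fun i j hij => ?_⟩
    · exact Finset.disjoint_coe.2 (h2 i j hij)
    · obtain ⟨u, hu, v, hv, h⟩ := h3 i j hij
      exact ⟨u, hu, v, hv, h⟩

theorem numG_eq (n : ℕ) : numG n = g n := by
  unfold numG g
  simp only [isMinor_iff]

theorem numC_eq (n : ℕ) : numC n = c n := by
  unfold numC c
  simp only [isMinor_iff]

theorem c_pos (n : ℕ) (hn : 1 ≤ n) : 0 < c n := by
  have h1 := h_one_le n hn
  unfold h at h1
  rcases Nat.eq_zero_or_pos (c n) with h0 | h0
  · rw [h0] at h1
    norm_num at h1
  · exact h0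

theorem log_c (n : ℕ) (hn : 1 ≤ n) :
    Real.log ((c n : ℝ) / n.factorial) = Real.log (h n) - Real.log n := by
  have h1 : (0 : ℝ) < n := by exact_mod_cast hn
  have h2 : (0 : ℝ) < c n := by exact_mod_cast c_pos n hn
  have h3 : (0 : ℝ) < n.factorial := by exact_mod_cast n.factorial_pos
  unfold h
  rw [mul_div_assoc, Real.log_mul h1.ne' (by positivity)]
  ring

theorem h_succ (n : ℕ) : h (n + 1) = (c (n + 1) : ℝ) / n.factorial := by
  unfold h
  rw [Nat.factorial_succ]
  push_cast
  have h3 : (0 : ℝ) < n.factorial := by exact_mod_cast n.factorial_pos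
  field_simp

theorem tendsto_log_div : Tendsto (fun n : ℕ => Real.log (n : ℝ) / n) atTop (𝓝 0) := by
  have h1 : Tendsto (fun x : ℝ => Real.log x / x) atTop (𝓝 0) :=
    Real.isLittleO_log_id_atTop.tendsto_div_nhds_zero
  exact h1.comp tendsto_natCast_atTop_atTop

theorem rpow_tendsto {f : ℕ → ℝ} {th : ℝ} (hpos : ∀ n, 1 ≤ n → 0 < f n)
    (h : Tendsto (fun n : ℕ => Real.log (f n) / n) atTop (𝓝 th)) :
    Tendsto (fun n : ℕ => (f n) ^ (1 / (n : ℝ))) atTop (𝓝 (Real.exp th)) := by
  have h1 := (Real.continuous_exp.tendsto th).comp h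
  refine h1.congr' ?_
  filter_upwards [eventually_ge_atTop 1] with n hn
  simp only [Function.comp]
  rw [Real.rpow_def_of_pos (hpos n hn)]
  congr 1
  ring

theorem main : ∃ γ : ℝ, 1 ≤ γ ∧ Real.log γ ≤ 300000 ∧
    Tendsto (fun n : ℕ => ((numG n : ℝ) / n.factorial) ^ (1 / (n : ℝ))) atTop (𝓝 γ) ∧
    Tendsto (fun n : ℕ => ((numC n : ℝ) / n.factorial) ^ (1 / (n : ℝ))) atTop (𝓝 γ) ∧
    ∀ n : ℕ, 2 ≤ n →
      γ ^ n * n.factorial * (n : ℝ) ^ (-((600 * Real.log γ + 1700) * Real.sqrt n)) ≤ numC n ∧
      numC n ≤ numG n ∧ (numG n : ℝ) ≤ γ ^ (n + 1) * n.factorial ∧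
      |Real.log ((numG n : ℝ) / n.factorial) / n - Real.log γ| ≤
        200000000 * (Real.log n / Real.sqrt n) := by
  simp only [numG_eq, numC_eq]
  obtain ⟨th, h0, h1, hlim, hup, hnn⟩ := limit_exists hyp_log
  have hlow := lower_bound hyp_log h0 hlim hnn
  have hgpos : ∀ n : ℕ, 1 ≤ n → 0 < g n := fun n hn => lt_of_lt_of_le (c_pos n hn) (c_le n)
  have hc : ∀ n : ℕ, 1 ≤ n → (0 : ℝ) < (c n : ℝ) / n.factorial := fun n hn => by
    have h2 : (0 : ℝ) < c n := by exact_mod_cast c_pos n hn
    have h3 : (0 : ℝ) < n.factorial := by exact_mod_cast n.factorial_pos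
    positivity
  have hg : ∀ n : ℕ, 1 ≤ n → (0 : ℝ) < (g n : ℝ) / n.factorial := fun n hn => by
    have h2 : (0 : ℝ) < g n := by exact_mod_cast hgpos n hn
    have h3 : (0 : ℝ) < n.factorial := by exact_mod_cast n.factorial_pos
    positivity
  have hcg : ∀ n : ℕ, 1 ≤ n →
      Real.log ((c n : ℝ) / n.factorial) ≤ Real.log ((g n : ℝ) / n.factorial) := fun n hn => by
    apply Real.log_le_log (hc n hn)
    apply div_le_div_of_nonneg_right _ (by positivity)
    exact_mod_cast c_le n
  have hgh : ∀ n : ℕ, 1 ≤ n →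
      Real.log ((g n : ℝ) / n.factorial) ≤ Real.log (h (n + 1)) := fun n hn => by
    apply Real.log_le_log (hg n hn)
    rw [h_succ]
    apply div_le_div_of_nonneg_right _ (by positivity)
    exact_mod_cast g_le n
  have hlog : Real.log (Real.exp th) = th := Real.log_exp th
  -- limits
  have hC : Tendsto (fun n : ℕ => Real.log ((c n : ℝ) / n.factorial) / n) atTop (𝓝 th) := by
    have h2 := hlim.sub tendsto_log_div
    rw [sub_zero] at h2
    refine h2.congr' ?_
    filter_upwards [eventually_ge_atTop 1] with n hn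
    rw [log_c n hn]
    ring
  have hH : Tendsto (fun n : ℕ => Real.log (h (n + 1)) / n) atTop (𝓝 th) := by
    have h2 : Tendsto (fun n : ℕ => Real.log (h (n + 1)) / ((n + 1 : ℕ) : ℝ)) atTop (𝓝 th) :=
      hlim.comp (tendsto_add_atTop_nat 1)
    have h3 : Tendsto (fun n : ℕ => ((n + 1 : ℕ) : ℝ) / n) atTop (𝓝 1) := by
      have h4 : Tendsto (fun n : ℕ => 1 + 1 / (n : ℝ)) atTop (𝓝 (1 + 0)) :=
        tendsto_const_nhds.add tendsto_one_div_atTop_nhds_zero_nat
      rw [add_zero] at h4
      refine h4.congr' ?_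
      filter_upwards [eventually_ge_atTop 1] with n hn
      have : (n : ℝ) ≠ 0 := by positivity
      push_cast
      field_simp
    have h5 := h2.mul h3
    rw [mul_one] at h5
    refine h5.congr' ?_
    filter_upwards [eventually_ge_atTop 1] with n hn
    have h6 : (n : ℝ) ≠ 0 := by positivity
    have h7 : ((n + 1 : ℕ) : ℝ) ≠ 0 := by positivity
    field_simp
  have hG : Tendsto (fun n : ℕ => Real.log ((g n : ℝ) / n.factorial) / n) atTop (𝓝 th) := by
    refine tendsto_of_tendsto_of_tendsto_of_le_of_le' hC hH ?_ ?_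
    · filter_upwards [eventually_ge_atTop 1] with n hn
      exact div_le_div_of_nonneg_right (hcg n hn) (by positivity)
    · filter_upwards [eventually_ge_atTop 1] with n hn
      exact div_le_div_of_nonneg_right (hgh n hn) (by positivity)
  refine ⟨Real.exp th, Real.one_le_exp h0, by rw [hlog]; exact h1, rpow_tendsto hg hG,
    rpow_tendsto hc hC, fun n hn => ?_⟩
  have hn1 : 1 ≤ n := by omega
  have hnR : (2 : ℝ) ≤ n := by exact_mod_cast hn
  have hnp : (0 : ℝ) < n := by linarith
  have hlogn : 0.69 ≤ Real.log n := by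
    have h2 : Real.log 2 ≤ Real.log n := Real.log_le_log (by norm_num) hnR
    have h3 := Real.log_two_gt_d9
    linarith
  have hsq : 1.4 ≤ Real.sqrt n := by
    rw [Real.le_sqrt (by norm_num) (by positivity)]
    norm_num
    linarith
  have hfac : (0 : ℝ) < n.factorial := by exact_mod_cast n.factorial_pos
  have hcp : (0 : ℝ) < c n := by exact_mod_cast c_pos n hn1
  have hgp : (0 : ℝ) < g n := by exact_mod_cast hgpos n hn1
  have hlow' : th * n - (600 * th + 1700) * (Real.sqrt n * Real.log n) ≤
      Real.log ((c n : ℝ) / n.factorial) := by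
    rw [log_c n hn1]
    have h2 := hlow n hn
    have h3 : Real.log n ≤ 100 * (Real.sqrt n * Real.log n) := by nlinarith
    nlinarith
  rw [hlog]
  refine ⟨?_, c_le n, ?_, ?_⟩
  · rw [← Real.log_le_log_iff (by positivity) hcp, Real.log_mul (by positivity) (by positivity),
      Real.log_mul (by positivity) (by positivity), Real.log_pow, hlog, Real.log_rpow hnp]
    rw [Real.log_div hcp.ne' hfac.ne'] at hlow'
    nlinarith
  · rw [← Real.log_le_log_iff hgp (by positivity), Real.log_mul (by positivity) (by positivity),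
      Real.log_pow, hlog]
    have h2 := hgh n hn1
    have h3 := hup (n + 1) (by omega)
    rw [Real.log_div hgp.ne' hfac.ne'] at h2
    push_cast at h3 ⊢
    linarith
  · have h2 := hgh n hn1
    have h3 := hup (n + 1) (by omega)
    have h4 := hcg n hn1
    push_cast at h3
    have hss : Real.sqrt n * Real.sqrt n = n := Real.mul_self_sqrt hnp.le
    have hs0 : 0 < Real.sqrt n := by linarith
    have e1 : Real.log ((g n : ℝ) / n.factorial) / n - th =
        (Real.log ((g n : ℝ) / n.factorial) - th * n) / n := by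
      field_simp
    rw [e1, abs_div, abs_of_pos hnp, div_le_iff₀ hnp]
    have e2 : 200000000 * (Real.log n / Real.sqrt n) * n =
        200000000 * (Real.sqrt n * Real.log n) := by
      have : Real.log n / Real.sqrt n * n = Real.sqrt n * Real.log n := by
        rw [div_mul_eq_mul_div, div_eq_iff hs0.ne']
        nlinarith
      rw [mul_assoc, this]
    rw [e2, abs_le]
    have h5 : 0.9 ≤ Real.sqrt n * Real.log n := by nlinarith
    constructor
    · nlinarith
    · nlinarith

end P512
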