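import Pool.Agent.Lib.P512.ConnB

/-!
# P512.Bal: from small components to a balanced separation

Let `n = Fintype.card V`.  A set `A` is closed if it is disjoint from `X` and has no edges leaving it except to `X`.  Unions of closed sets are closed.  For `b ∉ X` the
`hull` of `{b}` inside `Xᶜ` is a closed connected set containing `b` (a component).
If some closed connected set `D` has `n ≤ 3 * D.card`: take `A = D` (`2 * D.card ≤ n`, so `3 * D.card ≤ 2 * n`, and `n - X.card - D.card ≤ 2n/3`).
Otherwise choose a closed set `A` with `3 * A.card ≤ 2 * n` and `A.card` maximal (`Finset.exists_max_image` on a filter of `univ.powerset`; `∅` is closed).  If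
`3 * (n - X.card - A.card) > 2 * n` then `A ∪ X ≠ univ`: take `b` outside, `D` its component: `D` is disjoint from `A` (if `D` meets `A` then `D ⊆ A` by `conn_subset`), `3 * D.card < n` and
`3 * A.card < n`, so `A ∪ D` is closed, `3 * (A ∪ D).card ≤ 2 * n`, bigger: contradiction.
-/

namespace P512

open Finset

variable {V : Type*}

theorem balanced [Fintype V] [DecidableEq V] (G : SimpleGraph V) (X : Finset V)
    (hX : ∀ D : Finset V, Conn G D → Disjoint D X →
      (∀ u ∈ D, ∀ v, G.Adj u v → v ∈ D ∨ v ∈ X) → 2 * D.card ≤ Fintype.card V) :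
    ∃ A : Finset V, Disjoint A X ∧ 3 * A.card ≤ 2 * Fintype.card V ∧
      3 * (Fintype.card V - X.card - A.card) ≤ 2 * Fintype.card V ∧
      ∀ u ∈ A, ∀ v, G.Adj u v → v ∈ A ∨ v ∈ X := by
  classical
  by_cases hD : ∃ D : Finset V, Conn G D ∧ Disjoint D X ∧
      (∀ u ∈ D, ∀ v, G.Adj u v → v ∈ D ∨ v ∈ X) ∧ Fintype.card V ≤ 3 * D.card
  · obtain ⟨D, hc, hd, hcl, hcard⟩ := hD
    have h1 := hX D hc hd hcl
    exact ⟨D, hd, by omega, by omega, hcl⟩
  · push Not at hD
    let F : Finset (Finset V) := (univ : Finset V).powerset.filter (fun A => Disjoint A X ∧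
      3 * A.card ≤ 2 * Fintype.card V ∧ ∀ u ∈ A, ∀ v, G.Adj u v → v ∈ A ∨ v ∈ X)
    have hF : F.Nonempty := ⟨∅, by simp [F]⟩
    obtain ⟨A, hA, hmax⟩ := Finset.exists_max_image F Finset.card hF
    simp only [F, Finset.mem_filter, Finset.mem_powerset] at hA
    obtain ⟨-, hAd, hAc, hAcl⟩ := hA
    refine ⟨A, hAd, hAc, ?_, hAcl⟩
    by_contra hcon
    push Not at hcon
    have hne : ∃ b, b ∉ A ∪ X := by
      by_contra hall
      push Not at hall
      have h1 : Fintype.card V ≤ (A ∪ X).card := by
        rw [← Finset.card_univ]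
        exact Finset.card_le_card (fun b _ => hall b)
      have h2 := Finset.card_union_le A X
      omega
    obtain ⟨b, hb⟩ := hne
    rw [Finset.mem_union, not_or] at hb
    obtain ⟨D, hbD, hDU, hDc, hDcl⟩ := hull G {b} (univ \ X) (conn_singleton G b)
      (by
        intro x hx
        rw [Finset.mem_singleton] at hx
        subst hx
        simp [hb.2])
    have hbD' : b ∈ D := hbD (Finset.mem_singleton_self b)
    have hDX : ∀ v ∈ D, v ∉ X := fun v hv => (Finset.mem_sdiff.1 (hDU hv)).2
    have hDd : Disjoint D X := Finset.disjoint_left.2 hDX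
    have hDcl' : ∀ u ∈ D, ∀ v, G.Adj u v → v ∈ D ∨ v ∈ X := by
      intro u hu v hadj
      by_cases hv : v ∈ X
      · exact Or.inr hv
      · exact Or.inl (hDcl u hu v (by simp [hv]) hadj)
    have hD3 := hD D hDc hDd hDcl'
    have hDA : Disjoint A D := by
      rw [Finset.disjoint_left]
      intro v hvA hvD
      exact hb.1 (conn_subset hDc hAcl hDX ⟨v, hvD, hvA⟩ hbD')
    have hcardU : (A ∪ D).card = A.card + D.card := Finset.card_union_of_disjoint hDA
    have hmem : A ∪ D ∈ F := by
      simp only [F, Finset.mem_filter, Finset.mem_powerset]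
      refine ⟨Finset.subset_univ _, Finset.disjoint_union_left.2 ⟨hAd, hDd⟩, ?_, ?_⟩
      · rw [hcardU]; omega
      · intro u hu v hadj
        rcases Finset.mem_union.1 hu with hu | hu
        · rcases hAcl u hu v hadj with h | h
          · exact Or.inl (Finset.mem_union_left _ h)
          · exact Or.inr h
        · rcases hDcl' u hu v hadj with h | h
          · exact Or.inl (Finset.mem_union_right _ h)
          · exact Or.inr h
    have h3 := hmax _ hmem
    have h4 : 0 < D.card := Finset.card_pos.2 ⟨b, hbD'⟩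
    rw [hcardU] at h3
    omega

end P512
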