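import Pool.Agent.Lib.P512.Ast
import Pool.Agent.Lib.P512.Bal

/-!
# P512.Sep: balanced separations of order `14 sqrt n`
-/

namespace P512

open Finset

variable {V : Type*}

theorem separation [Fintype V] [DecidableEq V] (G : SimpleGraph V) (hG : ¬ K5 G)
    (h1 : 1 ≤ Fintype.card V) :
    ∃ X A : Finset V, Disjoint A X ∧ (X.card : ℝ) ≤ 14 * Real.sqrt (Fintype.card V) ∧
      3 * A.card ≤ 2 * Fintype.card V ∧
      3 * (Fintype.card V - X.card - A.card) ≤ 2 * Fintype.card V ∧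
      ∀ u ∈ A, ∀ v, G.Adj u v → v ∈ A ∨ v ∈ X := by
  have h0 : (1 : ℝ) ≤ Fintype.card V := by exact_mod_cast h1
  have hs : (0 : ℝ) ≤ Real.sqrt (3 * Fintype.card V) := Real.sqrt_nonneg _
  obtain ⟨X, hX, hX'⟩ := ast G hG ⌈Real.sqrt (3 * Fintype.card V)⌉₊ (by
    have h2 := Nat.le_ceil (Real.sqrt (3 * Fintype.card V))
    have h3 : (3 * Fintype.card V : ℝ) ≤
        (⌈Real.sqrt (3 * Fintype.card V)⌉₊ : ℝ) * (⌈Real.sqrt (3 * Fintype.card V)⌉₊ : ℝ) := by
      calc (3 * Fintype.card V : ℝ)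
          = Real.sqrt (3 * Fintype.card V) * Real.sqrt (3 * Fintype.card V) :=
            (Real.mul_self_sqrt (by positivity)).symm
        _ ≤ _ := mul_le_mul h2 h2 hs (by positivity)
    exact_mod_cast h3)
  obtain ⟨A, hA, hA1, hA2, hA3⟩ := balanced G X hX'
  refine ⟨X, A, hA, ?_, hA1, hA2, hA3⟩
  have h4 := (Nat.ceil_lt_add_one hs).le
  have h5 : (X.card : ℝ) ≤ 5 * (⌈Real.sqrt (3 * Fintype.card V)⌉₊ : ℝ) := by exact_mod_cast hX
  have h6 : Real.sqrt (3 * Fintype.card V) ≤ 9 / 5 * Real.sqrt (Fintype.card V) := by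
    rw [Real.sqrt_le_left (by positivity), mul_pow, Real.sq_sqrt (by positivity)]
    nlinarith
  have h7 : 1 ≤ Real.sqrt (Fintype.card V) := by
    rw [Real.one_le_sqrt]
    exact h0
  linarith

end P512
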