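import Pool.Agent.Lib.P512.Defs

/-!
# P512.A0: the numerical inequality for the induction step

`(sqrt a + sqrt b)^2 = a + b + 2 sqrt (a b) ≥ N + 2 sqrt (2 N^2 / 9)` because `(a - N/3)(b - N/3) ≥ 0`, so `sqrt a + sqrt b ≥ 1.393 sqrt N` (`1.393^2 = 1.940449 ≤ 1.9428 = 1 + 2 sqrt 2 / 3`; use `1.414 ≤ sqrt 2`).
`log a, log b ≥ log (N/3) = log N - log 3`, `log 3 ≤ 1.2` (`3 ≤ exp 1.2`, for instance `exp 1 > 2.7` and `exp 0.2 ≥ 1.2`), `log N ≥ log 10000 ≥ 9` (`exp 9 ≤ 2.7183^9 ≤ 8110`).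
So the sum is at least `1.393 sqrt N (log N - 1.2) ≥ 1.2 sqrt N log N`, as `0.193 log N ≥ 0.193 * 9 = 1.737 ≥ 1.6716`.
-/

namespace P512

namespace A0Aux

theorem nine (x : ℝ) (hx : 10000 ≤ x) : 9 ≤ Real.log x := by
  rw [Real.le_log_iff_exp_le (by linarith)]
  have h1 : Real.exp 9 = Real.exp 1 ^ 9 := by
    rw [← Real.exp_nat_mul]; norm_num
  have h2 : Real.exp 1 < 2.7182818286 := Real.exp_one_lt_d9
  have h3 : Real.exp 1 ^ 9 ≤ (2.7182818286 : ℝ) ^ 9 :=
    pow_le_pow_left₀ (Real.exp_pos 1).le h2.le 9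
  rw [h1]
  refine h3.trans (le_trans ?_ hx)
  norm_num

theorem log3 : Real.log 3 ≤ 6 / 5 := by
  rw [Real.log_le_iff_le_exp (by norm_num)]
  have h1 : Real.exp (6 / 5) = Real.exp 1 * Real.exp (1 / 5) := by
    rw [← Real.exp_add]; norm_num
  have h2 : 2.7182818283 < Real.exp 1 := Real.exp_one_gt_d9
  have h3 : (1 / 5 : ℝ) + 1 ≤ Real.exp (1 / 5) := Real.add_one_le_exp _
  rw [h1]
  nlinarith

theorem real_ineq (n a b : ℝ) (hn : 10000 ≤ n) (ha : n ≤ 3 * a) (hb : n ≤ 3 * b)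
    (hab : n ≤ a + b) :
    6 / 5 * (Real.sqrt n * Real.log n) ≤
      Real.sqrt a * Real.log a + Real.sqrt b * Real.log b := by
  have hn0 : 0 < n := by linarith
  have ha0 : 0 < a := by linarith
  have hb0 : 0 < b := by linarith
  have hL := nine n hn
  have h3 := log3
  have key : ∀ c : ℝ, 0 < c → n ≤ 3 * c → Real.log n - 6 / 5 ≤ Real.log c := by
    intro c hc h
    have h1 : Real.log n ≤ Real.log (3 * c) := Real.log_le_log hn0 h
    rw [Real.log_mul (by norm_num) hc.ne'] at h1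
    linarith
  have hla := key a ha0 ha
  have hlb := key b hb0 hb
  have hsa := Real.sqrt_nonneg a
  have hsb := Real.sqrt_nonneg b
  have hsn := Real.sqrt_nonneg n
  have e1 : Real.sqrt a * Real.sqrt b = Real.sqrt (a * b) := (Real.sqrt_mul ha0.le b).symm
  have e2 : 0.4713 * n ≤ Real.sqrt (a * b) := by
    apply Real.le_sqrt_of_sq_le
    have h4 : 2 / 9 * n ^ 2 ≤ a * b := by
      nlinarith [mul_nonneg (sub_nonneg.2 (show n / 3 ≤ a by linarith))
        (sub_nonneg.2 (show n / 3 ≤ b by linarith)), mul_le_mul_of_nonneg_left hab hn0.le]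
    have : (0.4713 * n) ^ 2 ≤ 2 / 9 * n ^ 2 := by
      rw [mul_pow]
      have : (0 : ℝ) ≤ n ^ 2 := sq_nonneg n
      nlinarith
    linarith
  have e3 : 1.393 * Real.sqrt n ≤ Real.sqrt a + Real.sqrt b := by
    refine (pow_le_pow_iff_left₀ (by positivity) (by positivity) two_ne_zero).1 ?_
    rw [mul_pow, Real.sq_sqrt hn0.le, add_sq, Real.sq_sqrt ha0.le, Real.sq_sqrt hb0.le,
      mul_assoc 2, e1]
    nlinarith
  have h5 : (Real.sqrt a + Real.sqrt b) * (Real.log n - 6 / 5) ≤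
      Real.sqrt a * Real.log a + Real.sqrt b * Real.log b := by
    nlinarith [mul_le_mul_of_nonneg_left hla hsa, mul_le_mul_of_nonneg_left hlb hsb]
  have h6 : 1.393 * Real.sqrt n * (Real.log n - 6 / 5) ≤
      (Real.sqrt a + Real.sqrt b) * (Real.log n - 6 / 5) :=
    mul_le_mul_of_nonneg_right e3 (by linarith)
  have h7 : 6 / 5 * (Real.sqrt n * Real.log n) ≤ 1.393 * Real.sqrt n * (Real.log n - 6 / 5) := by
    nlinarith [mul_nonneg hsn (sub_nonneg.2 hL)]
  linarith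

end A0Aux

theorem sqrt_log (N a b : ℕ) (hN : 10000 ≤ N) (ha : N < 3 * a) (hb : N < 3 * b)
    (hab : N ≤ a + b) :
    6 / 5 * (Real.sqrt N * Real.log N) ≤
      Real.sqrt a * Real.log a + Real.sqrt b * Real.log b := by
  apply A0Aux.real_ineq
  · exact_mod_cast hN
  · exact_mod_cast ha.le
  · exact_mod_cast hb.le
  · exact_mod_cast hab

theorem nine_le_log (N : ℕ) (hN : 10000 ≤ N) : 9 ≤ Real.log N := by
  apply A0Aux.nine
  exact_mod_cast hN

end P512
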