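import Pool.Agent.Lib.P512.A0

/-!
# P512.A1: an explicit linear upper bound

Let `al = 300000`, `be = 2300000`.  Claim: `L N ≤ al * N - be * (sqrt N * log N)` for all `N ≥ 20000`, by strong induction.
For `20000 ≤ N ≤ 60000`: `L N ≤ N^2` and `log N ≤ 0.104 * sqrt N` (`log N = 2 log (sqrt N)`, `log (sqrt N) ≤ sqrt N / 100 + log 100 - 1` (from `log y ≤ y - 1` for `y = sqrt N / 100`), `log 100 ≤ 4.7`, `sqrt N ≥ 141`), so
`be * sqrt N * log N ≤ 0.104 * be * N = 239200 * N` and `N^2 ≤ 60000 * N ≤ (al - 239200) * N`.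
For `N > 60000`: `rcr` gives `a`, `b`; `a, b ≥ 20000`; `a, b < N` because `a + b ≤ N + 16 sqrt N` and `16 sqrt N < N / 3`.  `L N ≤ al (a + b) - be (sqrt a log a + sqrt b log b) + 40 sqrt N log N ≤ al N + 16 al sqrt N - 1.2 be sqrt N log N + 40 sqrt N log N`
(`sqrt_log`), and `16 al ≤ (16 al / 10.5) log N`, `log N ≥ 10.5` (`exp 21 ≤ 60000^2`, from `Real.exp_one_lt_d9`), `16 al / 10.5 + 40 ≤ 457183 ≤ 0.2 be = 460000`.
Then `L n ≤ 300000 * n` for `n ≥ 20000`, and for `n < 20000` `L n ≤ n^2 ≤ 20000 n`.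
-/

namespace P512

namespace A1Aux

theorem log_le_aux (x k : ℝ) (hx : 0 < x) : Real.log x ≤ k - 1 + x / Real.exp k := by
  have h1 := Real.log_le_sub_one_of_pos (div_pos hx (Real.exp_pos k))
  rw [Real.log_div hx.ne' (Real.exp_pos k).ne', Real.log_exp] at h1
  linarith

theorem exp5 : (148 : ℝ) ≤ Real.exp 5 := by
  have h1 : Real.exp 5 = (Real.exp 1) ^ 5 := by
    rw [← Real.exp_nat_mul]; norm_num
  rw [h1]
  have h2 : (2.7182818283 : ℝ) ≤ Real.exp 1 := Real.exp_one_gt_d9.le
  have h3 : (2.7182818283 : ℝ) ^ 5 ≤ (Real.exp 1) ^ 5 := pow_le_pow_left₀ (by norm_num) h2 5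
  refine le_trans ?_ h3
  norm_num

theorem exp11 : Real.exp 11 ≤ 60000 := by
  have h1 : Real.exp 11 = (Real.exp 1) ^ 11 := by
    rw [← Real.exp_nat_mul]; norm_num
  rw [h1]
  have h2 : Real.exp 1 ≤ (2.7182818286 : ℝ) := Real.exp_one_lt_d9.le
  have h3 : (Real.exp 1) ^ 11 ≤ (2.7182818286 : ℝ) ^ 11 :=
    pow_le_pow_left₀ (Real.exp_pos 1).le h2 11
  refine h3.trans ?_
  norm_num

theorem log_small {s : ℝ} (hs : 141 ≤ s) : Real.log (s ^ 2) ≤ 0.104 * s := by
  have h1 := log_le_aux s 5 (by linarith)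
  have h2 : s / Real.exp 5 ≤ s / 148 := div_le_div_of_nonneg_left (by linarith) (by norm_num) exp5
  rw [Real.log_pow]
  push_cast
  have h3 : s / 148 = s * (1 / 148) := by ring
  nlinarith

theorem main {L : ℕ → ℝ} (hL : Hyp L) : ∀ N : ℕ, 20000 ≤ N →
    L N ≤ 300000 * N - 2300000 * (Real.sqrt N * Real.log N) := by
  intro N
  induction N using Nat.strong_induction_on with
  | _ N ih =>
    intro hN
    have hNr : (20000 : ℝ) ≤ N := by exact_mod_cast hN
    have hs0 : 0 ≤ Real.sqrt N := Real.sqrt_nonneg _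
    have hsq : Real.sqrt N ^ 2 = N := Real.sq_sqrt (by linarith)
    have hs : 141 ≤ Real.sqrt N := by
      apply Real.le_sqrt_of_sq_le
      norm_num
      linarith
    by_cases hsm : N ≤ 60000
    · have hsm' : (N : ℝ) ≤ 60000 := by exact_mod_cast hsm
      have h1 := hL.triv N (by omega)
      have h2 := log_small hs
      rw [hsq] at h2
      have h3 : Real.sqrt N * Real.log N ≤ 0.104 * N := by
        calc Real.sqrt N * Real.log N ≤ Real.sqrt N * (0.104 * Real.sqrt N) :=
              mul_le_mul_of_nonneg_left h2 hs0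
          _ = 0.104 * Real.sqrt N ^ 2 := by ring
          _ = 0.104 * N := by rw [hsq]
      nlinarith
    · push Not at hsm
      have hbig : (60000 : ℝ) < N := by exact_mod_cast hsm
      obtain ⟨a, b, ha, hb, hab, hab2, hrec⟩ := hL.rcr N (by omega)
      push_cast at hab2
      have har : (N : ℝ) < 3 * a := by exact_mod_cast ha
      have hbr : (N : ℝ) < 3 * b := by exact_mod_cast hb
      have h16 : 16 * Real.sqrt N ≤ N / 3 := by nlinarith
      have haN : a < N := by
        have : (a : ℝ) < N := by linarith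
        exact_mod_cast this
      have hbN : b < N := by
        have : (b : ℝ) < N := by linarith
        exact_mod_cast this
      have iha := ih a haN (by omega)
      have ihb := ih b hbN (by omega)
      have hsl := sqrt_log N a b (by omega) ha hb hab
      have hlog : 11 ≤ Real.log N := by
        rw [Real.le_log_iff_exp_le (by linarith)]
        linarith [exp11]
      have hkey : 4800000 * Real.sqrt N + 40 * (Real.sqrt N * Real.log N) ≤
          460000 * (Real.sqrt N * Real.log N) := by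
        nlinarith [mul_le_mul_of_nonneg_left hlog hs0]
      have hrec' : L N ≤ L a + L b + 40 * (Real.sqrt N * Real.log N) := by
        rw [← mul_assoc]; exact hrec
      nlinarith

end A1Aux

theorem linear_bound {L : ℕ → ℝ} (hL : Hyp L) (n : ℕ) (hn : 1 ≤ n) : L n ≤ 300000 * n := by
  by_cases h : 20000 ≤ n
  · have h1 := A1Aux.main hL n h
    have h2 : 0 ≤ Real.sqrt n * Real.log n :=
      mul_nonneg (Real.sqrt_nonneg _) (Real.log_natCast_nonneg n)
    linarith
  · have h1 := hL.triv n hn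
    have h2 : (n : ℝ) ≤ 20000 := by
      exact_mod_cast (by omega : n ≤ 20000)
    have h3 : (0 : ℝ) ≤ n := Nat.cast_nonneg n
    nlinarith

end P512
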