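import Pool.Agent.Lib.P512.A0

/-!
# P512.A3: a good value in every interval `[n/4, n]`

Suppose not: for all `m` with `n ≤ 4 m`, `m ≤ n`: `L m < th * m - (80 * th + 201) * (sqrt n * log n)`.  Let `be = 80 * th + 200`.  Claim: for all `N` with `n ≤ 4 N`: `L N ≤ th * N - log n / sqrt n * N - be * (sqrt N * log N)`, by strong induction.
`N ≤ n`: `log n / sqrt n * N ≤ sqrt n * log n` and `sqrt N * log N ≤ sqrt n * log n`.
`N > n`: `rcr` gives `a`, `b`; `n ≤ 4 a`, `n ≤ 4 b`, `a, b < N` (`16 sqrt N < N / 3` for `N ≥ 40000`).  `L N ≤ th (a+b) - log n / sqrt n (a + b) - be (sqrt a log a + sqrt b log b) + 40 sqrt N log N`; use `N ≤ a + b ≤ N + 16 sqrt N`, `sqrt_log`,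
`16 th sqrt N + 40 sqrt N log N ≤ (16 th + 40) sqrt N log N = 0.2 be sqrt N log N` (`log N ≥ 1`).
So `L N / N ≤ th - log n / sqrt n` for all `N ≥ n`; the limit gives `th ≤ th - log n / sqrt n` (`le_of_tendsto`), but `log n / sqrt n > 0`: contradiction.
-/

namespace P512

open Filter Topology

theorem A3Aux.step {L : ℕ → ℝ} (hL : Hyp L) {th ka : ℝ} (h0 : 0 ≤ th) (hka : 0 ≤ ka) (N n : ℕ)
    (hn : 40000 ≤ n) (hN : n < N)
    (ih : ∀ m < N, n ≤ 4 * m →
      L m ≤ th * m - ka * m - (80 * th + 200) * (Real.sqrt m * Real.log m)) :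
    L N ≤ th * N - ka * N - (80 * th + 200) * (Real.sqrt N * Real.log N) := by
  obtain ⟨a, b, ha, hb, hab, hab2, hLN⟩ := hL.rcr N (by omega)
  have hNR : (40000 : ℝ) ≤ N := by exact_mod_cast (by omega : 40000 ≤ N)
  have hs0 : 0 ≤ Real.sqrt N := Real.sqrt_nonneg _
  have hs : Real.sqrt N * Real.sqrt N = N := Real.mul_self_sqrt (by linarith)
  have hs200 : (200 : ℝ) ≤ Real.sqrt N :=
    (Real.le_sqrt' (by norm_num)).2 (le_trans (by norm_num) hNR)
  have haR : (N : ℝ) < 3 * a := by exact_mod_cast ha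
  have hbR : (N : ℝ) < 3 * b := by exact_mod_cast hb
  have habR : (N : ℝ) ≤ a + b := by exact_mod_cast hab
  push_cast at hab2
  have h16 : 48 * Real.sqrt N < N := by nlinarith
  have haN : a < N := by
    have : (a : ℝ) < N := by linarith
    exact_mod_cast this
  have hbN : b < N := by
    have : (b : ℝ) < N := by linarith
    exact_mod_cast this
  have h1 := ih a haN (by omega)
  have h2 := ih b hbN (by omega)
  have h3 := sqrt_log N a b (by omega) ha hb hab
  have h9 := nine_le_log N (by omega)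
  have h4 : Real.sqrt N ≤ Real.sqrt N * Real.log N := by nlinarith
  obtain ⟨y, hy⟩ : ∃ y, y = Real.sqrt N * Real.log N := ⟨_, rfl⟩
  obtain ⟨ya, hya⟩ : ∃ y, y = Real.sqrt a * Real.log a := ⟨_, rfl⟩
  obtain ⟨yb, hyb⟩ : ∃ y, y = Real.sqrt b * Real.log b := ⟨_, rfl⟩
  have h40 : 40 * Real.sqrt N * Real.log N = 40 * y := by rw [hy]; ring
  rw [h40] at hLN
  rw [← hy] at h3 h4 ⊢
  rw [← hya, ← hyb] at h3
  rw [← hya] at h1
  rw [← hyb] at h2
  have h5 : (80 * th + 200) * (6 / 5 * y) ≤ (80 * th + 200) * (ya + yb) :=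
    mul_le_mul_of_nonneg_left h3 (by positivity)
  have h6 : ka * N ≤ ka * (a + b) := mul_le_mul_of_nonneg_left habR hka
  have h7 : th * (a + b) ≤ th * (N + 16 * Real.sqrt N) := mul_le_mul_of_nonneg_left hab2 h0
  have h8 : th * Real.sqrt N ≤ th * y := mul_le_mul_of_nonneg_left h4 h0
  nlinarith

theorem good_value {L : ℕ → ℝ} (hL : Hyp L) {th : ℝ} (h0 : 0 ≤ th)
    (hlim : Tendsto (fun n : ℕ => L n / n) atTop (𝓝 th)) (n : ℕ) (hn : 40000 ≤ n) :
    ∃ m : ℕ, n ≤ 4 * m ∧ m ≤ n ∧
      th * m - (80 * th + 201) * (Real.sqrt n * Real.log n) ≤ L m := by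
  by_contra hcon
  push Not at hcon
  have hnR : (40000 : ℝ) ≤ n := by exact_mod_cast hn
  have hs : Real.sqrt n * Real.sqrt n = n := Real.mul_self_sqrt (by linarith)
  have hs0 : 0 < Real.sqrt n := Real.sqrt_pos.2 (by linarith)
  have hl0 : 0 < Real.log n := Real.log_pos (by linarith)
  obtain ⟨ka, hka⟩ : ∃ ka, ka = Real.log n / Real.sqrt n := ⟨_, rfl⟩
  have hka0 : 0 < ka := by rw [hka]; positivity
  have hkan : ka * n = Real.sqrt n * Real.log n := by
    have h1 : Real.sqrt n * Real.log n * Real.sqrt n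
        = Real.log n * (Real.sqrt n * Real.sqrt n) := by ring
    rw [hka, div_mul_eq_mul_div, div_eq_iff hs0.ne', h1, hs]
  have hclaim : ∀ N : ℕ, n ≤ 4 * N →
      L N ≤ th * N - ka * N - (80 * th + 200) * (Real.sqrt N * Real.log N) := by
    intro N
    induction N using Nat.strong_induction_on with
    | _ N ih =>
      intro hN
      rcases le_or_gt N n with hNn | hNn
      · have h1 := hcon N hN hNn
        have hNR : (N : ℝ) ≤ n := by exact_mod_cast hNn
        have hN1 : (1 : ℝ) ≤ N := by exact_mod_cast (by omega : 1 ≤ N)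
        have h2 : ka * N ≤ ka * n := mul_le_mul_of_nonneg_left hNR hka0.le
        have h3 : Real.sqrt N * Real.log N ≤ Real.sqrt n * Real.log n :=
          mul_le_mul (Real.sqrt_le_sqrt hNR) (Real.log_le_log (by linarith) hNR)
            (Real.log_nonneg hN1) hs0.le
        have h4 : (80 * th + 200) * (Real.sqrt N * Real.log N) ≤
            (80 * th + 200) * (Real.sqrt n * Real.log n) :=
          mul_le_mul_of_nonneg_left h3 (by positivity)
        linarith
      · exact A3Aux.step hL h0 hka0.le N n hn hNn ih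
  have hev : ∀ᶠ N : ℕ in atTop, L N / N ≤ th - ka := by
    filter_upwards [eventually_ge_atTop n] with N hN
    have hNR : (n : ℝ) ≤ N := by exact_mod_cast hN
    have hN0 : (0 : ℝ) < N := by linarith
    rw [div_le_iff₀ hN0]
    have h1 := hclaim N (by omega)
    have h2 : 0 ≤ (80 * th + 200) * (Real.sqrt N * Real.log N) := by
      have : 0 ≤ Real.log N := Real.log_nonneg (by linarith)
      positivity
    linarith
  have := le_of_tendsto hlim hev
  linarith

end P512
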