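import Pool.Agent.Lib.P512.ProdL

/-!
# P512.Ast: the separator theorem of Alon, Seymour and Thomas for graphs without a `K_5` minor

Let `n = Fintype.card V`.  Suppose the conclusion is false: `(*)` for every `X` with `X.card ≤ 5 * r` there is a connected `D`, disjoint from `X`, with no edges leaving it except to `X`
(`∀ u ∈ D, ∀ v, G.Adj u v → v ∈ D ∨ v ∈ X`) and `n < 2 * D.card`.
A state is a finite set `C : Finset (Finset V)` of connected sets, pairwise disjoint, pairwise joined by an edge, and `X D : Finset V` with: every member of `C` is disjoint from `D`; `X ⊆ C.biUnion id` ;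
`(X ∩ S).card ≤ r` for all `S ∈ C` (so `X.card ≤ C.card * r`); `D` connected, disjoint from `X`, no edges leaving `D` except to `X`, `n < 2 * D.card`; `C.card ≤ 4`.
(`C.card = 5` is impossible: it gives `K5 G` via `C.equivFin` or `Finset.card_eq...`.)
Claim: no state exists; strong induction on `10 * D.card + C.card`.  There is a state: `C = ∅`, `X = ∅`, `D` from `(*)`.  (`r ≥ 1` because `n ≥ 1` when there is a state.)
Step.  (a) If some `S ∈ C` has no edge to `D`: the state `C.erase S`, `X \ S`, `D` is smaller.  So every `A S = D.filter (fun v => ∃ u ∈ S, G.Adj u v)` is not empty.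
(b) If `C = ∅` let `T = {d}`, `d ∈ D` and go to (i).  Otherwise enumerate `C` by `Fin (m+1)`, `m + 1 = C.card ≤ 4`, and apply `prod_lemma` to `D`, the sets `A S` and `r`.
(i) `T ⊆ D` connected, `T.card ≤ r`, joined to every member of `C`: if `C.card = 4` then `insert T C` gives `K5 G`.  Otherwise `C' = insert T C`, `X' = X ∪ T`, `X'.card ≤ 4 * r`, `D'` from `(*)` for `X'`.
`D'` meets `D` (both have more than `n/2` elements: `Finset.card_union_add_card_inter`), avoids `X`, so `D' ⊆ D` (`conn_subset`), and `D'` is disjoint from `T`, so `D'.card < D.card`: smaller state.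
(ii) `Z ⊆ D`, `Z.card * r ≤ m * n ≤ 3 * n ≤ r * r`, so `Z.card ≤ r`.  `(X ∪ Z).card ≤ 5 * r`: `D1` from `(*)`; `D1 ⊆ D` as before and `D1` avoids `Z`, so by the property of `Z` there is `S ∈ C` with `D1` disjoint from `A S`.
Let `K` be the `hull` of `S` inside `S ∪ (D \ D1)`.  `C' = insert K (C.erase S)`, `X' = (X \ S) ∪ (K ∩ Z)`, `X'.card ≤ 4 * r`, `D'` from `(*)` for `X'`.
`W = D \ K` has no edges leaving it except to `X'`: let `w ∈ W`, `G.Adj w u`, `u ∉ W`.  If `u ∉ D`: `u ∈ X`; if `u ∈ S` then `w ∈ A S`, so `w ∉ D1`, so `w ∈ D \ D1` is a neighbour of `u ∈ S ⊆ K`, so `w ∈ K`, contradiction; so `u ∈ X \ S`.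
If `u ∈ D`: `u ∈ K`; if `w ∉ D1` then `w ∈ K` (hull), contradiction; so `w ∈ D1`, `u ∉ D1` (`K ⊆ S ∪ (D \ D1)`, `S` disjoint from `D`), so `u ∈ X ∪ Z`, `u ∉ X`, so `u ∈ K ∩ Z`.
`D'` meets `D1` (sizes), `D1 ⊆ W` (`K ∩ D1 = ∅`), so `D' ⊆ W` (`conn_subset`): `D'` is disjoint from `K` and from the other members of `C`, and `D'.card < D.card` because `K ∩ D` is not empty (an element of `A S` is in `D`, not in `D1`, and adjacent to `S`, so in `K`).
-/

namespace P512

open Finset

variable {V : Type*}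

namespace AstAux

/-- the states of the proof -/
structure St [Fintype V] [DecidableEq V] (G : SimpleGraph V) (r : ℕ) (C : Finset (Finset V))
    (X D : Finset V) : Prop where
  conn : ∀ S ∈ C, Conn G S
  disj : ∀ S ∈ C, ∀ T ∈ C, S ≠ T → Disjoint S T
  adj : ∀ S ∈ C, ∀ T ∈ C, S ≠ T → ∃ u ∈ S, ∃ v ∈ T, G.Adj u v
  dD : ∀ S ∈ C, Disjoint S D
  XC : ∀ x ∈ X, ∃ S ∈ C, x ∈ S
  Xr : ∀ S ∈ C, (X ∩ S).card ≤ r
  cD : Conn G D
  dX : Disjoint D X
  out : ∀ u ∈ D, ∀ v, G.Adj u v → v ∈ D ∨ v ∈ X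
  big : Fintype.card V < 2 * D.card
  c4 : C.card ≤ 4

theorem k5_of [DecidableEq V] {G : SimpleGraph V} {C : Finset (Finset V)} (h5 : C.card = 5)
    (conn : ∀ S ∈ C, Conn G S) (disj : ∀ S ∈ C, ∀ T ∈ C, S ≠ T → Disjoint S T)
    (adj : ∀ S ∈ C, ∀ T ∈ C, S ≠ T → ∃ u ∈ S, ∃ v ∈ T, G.Adj u v) : K5 G := by
  let e := Finset.equivFinOfCardEq h5
  have hne : ∀ i j : Fin 5, i ≠ j → (e.symm i : Finset V) ≠ (e.symm j : Finset V) :=
    fun i j hij h => hij (e.symm.injective (Subtype.ext h))
  exact ⟨fun i => (e.symm i : Finset V), fun i => conn _ (e.symm i).2,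
    fun i j hij => disj _ (e.symm i).2 _ (e.symm j).2 (hne i j hij),
    fun i j hij => adj _ (e.symm i).2 _ (e.symm j).2 (hne i j hij)⟩

theorem card_le [DecidableEq V] {r : ℕ} {C : Finset (Finset V)} {X : Finset V}
    (XC : ∀ x ∈ X, ∃ S ∈ C, x ∈ S) (Xr : ∀ S ∈ C, (X ∩ S).card ≤ r) : X.card ≤ C.card * r := by
  have h1 : X ⊆ C.biUnion (fun S => X ∩ S) := by
    intro x hx
    obtain ⟨S, hS, hxS⟩ := XC x hx
    exact Finset.mem_biUnion.2 ⟨S, hS, Finset.mem_inter.2 ⟨hx, hxS⟩⟩
  exact (Finset.card_le_card h1).trans (Finset.card_biUnion_le_card_mul _ _ _ Xr)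

theorem meet [Fintype V] [DecidableEq V] {D D' : Finset V} (h : Fintype.card V < 2 * D.card)
    (h' : Fintype.card V < 2 * D'.card) : ∃ v ∈ D', v ∈ D := by
  by_contra hc
  push Not at hc
  have h1 : Disjoint D' D := Finset.disjoint_left.2 hc
  have h2 := Finset.card_union_of_disjoint h1
  have h3 := Finset.card_le_univ (D' ∪ D)
  omega

section

variable [Fintype V] [DecidableEq V] {G : SimpleGraph V} {r : ℕ}

theorem stepA {C : Finset (Finset V)} {X D : Finset V} (h : St G r C X D) {S : Finset V}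
    (hno : ∀ u ∈ S, ∀ v ∈ D, ¬ G.Adj u v) : St G r (C.erase S) (X \ S) D where
  conn := fun T hT => h.conn T (Finset.mem_of_mem_erase hT)
  disj := fun T hT T' hT' => h.disj T (Finset.mem_of_mem_erase hT) T' (Finset.mem_of_mem_erase hT')
  adj := fun T hT T' hT' => h.adj T (Finset.mem_of_mem_erase hT) T' (Finset.mem_of_mem_erase hT')
  dD := fun T hT => h.dD T (Finset.mem_of_mem_erase hT)
  XC := by
    intro x hx
    rw [Finset.mem_sdiff] at hx
    obtain ⟨T, hT, hxT⟩ := h.XC x hx.1
    exact ⟨T, Finset.mem_erase.2 ⟨fun he => hx.2 (he ▸ hxT), hT⟩, hxT⟩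
  Xr := fun T hT => (Finset.card_le_card (Finset.inter_subset_inter_right
    Finset.sdiff_subset)).trans (h.Xr T (Finset.mem_of_mem_erase hT))
  cD := h.cD
  dX := Finset.disjoint_of_subset_right Finset.sdiff_subset h.dX
  out := by
    intro u hu v huv
    rcases h.out u hu v huv with h1 | h1
    · exact Or.inl h1
    · exact Or.inr (Finset.mem_sdiff.2 ⟨h1, fun hv => hno v hv u hu huv.symm⟩)
  big := h.big
  c4 := (Finset.card_le_card (Finset.erase_subset _ _)).trans h.c4

/-- Case (i). -/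
theorem stepI (hG : ¬ K5 G)
    (hcon : ∀ X : Finset V, X.card ≤ 5 * r → ∃ D : Finset V, Conn G D ∧ Disjoint D X ∧
      (∀ u ∈ D, ∀ v, G.Adj u v → v ∈ D ∨ v ∈ X) ∧ Fintype.card V < 2 * D.card)
    {C : Finset (Finset V)} {X D : Finset V} (h : St G r C X D) {T : Finset V} (hT : T ⊆ D)
    (cT : Conn G T) (Tr : T.card ≤ r) (hTA : ∀ S ∈ C, ∃ v ∈ T, ∃ u ∈ S, G.Adj u v) :
    ∃ C' X' D', St G r C' X' D' ∧ 10 * D'.card + C'.card < 10 * D.card + C.card := by
  obtain ⟨t0, ht0⟩ := cT.1
  have hTS : ∀ S ∈ C, Disjoint S T := fun S hS => Finset.disjoint_of_subset_right hT (h.dD S hS)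
  have hTC : T ∉ C := fun hTC => Finset.disjoint_left.1 (hTS T hTC) ht0 ht0
  have conn : ∀ S ∈ insert T C, Conn G S := by
    intro S hS
    rcases Finset.mem_insert.1 hS with rfl | hS
    · exact cT
    · exact h.conn S hS
  have disj : ∀ S ∈ insert T C, ∀ S' ∈ insert T C, S ≠ S' → Disjoint S S' := by
    intro S hS S' hS' hne
    rcases Finset.mem_insert.1 hS with h1 | h1
    · rcases Finset.mem_insert.1 hS' with h2 | h2
      · exact absurd (h1.trans h2.symm) hne
      · rw [h1]; exact (hTS S' h2).symm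
    · rcases Finset.mem_insert.1 hS' with h2 | h2
      · rw [h2]; exact hTS S h1
      · exact h.disj S h1 S' h2 hne
  have adj : ∀ S ∈ insert T C, ∀ S' ∈ insert T C, S ≠ S' → ∃ u ∈ S, ∃ v ∈ S', G.Adj u v := by
    intro S hS S' hS' hne
    rcases Finset.mem_insert.1 hS with h1 | h1
    · rcases Finset.mem_insert.1 hS' with h2 | h2
      · exact absurd (h1.trans h2.symm) hne
      · obtain ⟨v, hv, u, hu, huv⟩ := hTA S' h2
        exact ⟨v, h1 ▸ hv, u, hu, huv.symm⟩
    · rcases Finset.mem_insert.1 hS' with h2 | h2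
      · obtain ⟨v, hv, u, hu, huv⟩ := hTA S h1
        exact ⟨u, hu, v, h2 ▸ hv, huv⟩
      · exact h.adj S h1 S' h2 hne
  have hc : (insert T C).card = C.card + 1 := Finset.card_insert_of_notMem hTC
  by_cases h4 : C.card = 4
  · exact absurd (k5_of (by rw [hc, h4]) conn disj adj) hG
  · have h3 : C.card ≤ 3 := by have := h.c4; omega
    have hX := card_le h.XC h.Xr
    have hX' : (X ∪ T).card ≤ 5 * r := by
      have h5 := Finset.card_union_le X T
      have h6 : C.card * r ≤ 3 * r := Nat.mul_le_mul_right _ h3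
      omega
    obtain ⟨D', cD', dX', out', big'⟩ := hcon _ hX'
    rw [Finset.disjoint_union_right] at dX'
    have hsub : D' ⊆ D := conn_subset cD' h.out (fun v hv => Finset.disjoint_left.1 dX'.1 hv)
      (meet h.big big')
    refine ⟨insert T C, X ∪ T, D', ⟨conn, disj, adj, ?_, ?_, ?_, cD', ?_, out', big', by omega⟩, ?_⟩
    · intro S hS
      rcases Finset.mem_insert.1 hS with rfl | hS
      · exact dX'.2.symm
      · exact Finset.disjoint_of_subset_right hsub (h.dD S hS)
    · intro x hx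
      rcases Finset.mem_union.1 hx with hx | hx
      · obtain ⟨S, hS, hxS⟩ := h.XC x hx
        exact ⟨S, Finset.mem_insert_of_mem hS, hxS⟩
      · exact ⟨T, Finset.mem_insert_self _ _, hx⟩
    · intro S hS
      rcases Finset.mem_insert.1 hS with h1 | hS
      · subst h1
        refine le_trans (Finset.card_le_card ?_) Tr
        exact Finset.inter_subset_right
      · refine le_trans (Finset.card_le_card ?_) (h.Xr S hS)
        intro x hx
        rw [Finset.mem_inter, Finset.mem_union] at hx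
        rcases hx.1 with h1 | h1
        · exact Finset.mem_inter.2 ⟨h1, hx.2⟩
        · exact absurd h1 (Finset.disjoint_left.1 (hTS S hS) hx.2)
    · rw [Finset.disjoint_union_right]; exact dX'
    · have h7 : D'.card < D.card := by
        refine Finset.card_lt_card ⟨hsub, fun hh => ?_⟩
        exact Finset.disjoint_left.1 dX'.2 (hh (hT ht0)) ht0
      omega

/-- Case (ii). -/
theorem stepII
    (hcon : ∀ X : Finset V, X.card ≤ 5 * r → ∃ D : Finset V, Conn G D ∧ Disjoint D X ∧
      (∀ u ∈ D, ∀ v, G.Adj u v → v ∈ D ∨ v ∈ X) ∧ Fintype.card V < 2 * D.card)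
    {C : Finset (Finset V)} {X D : Finset V} (h : St G r C X D)
    (hA : ∀ S ∈ C, ∃ v ∈ D, ∃ u ∈ S, G.Adj u v) {Z : Finset V} (hZ : Z ⊆ D) (Zr : Z.card ≤ r)
    (hZS : ∀ S : Finset V, S ⊆ D → Conn G S → (∀ v ∈ S, v ∉ Z) →
      ∃ T ∈ C, ∀ v ∈ S, ∀ u ∈ T, ¬ G.Adj u v) :
    ∃ C' X' D', St G r C' X' D' ∧ 10 * D'.card + C'.card < 10 * D.card + C.card := by
  have hX := card_le h.XC h.Xr
  have hXZ : (X ∪ Z).card ≤ 5 * r := by
    have h5 := Finset.card_union_le X Z
    have h6 : C.card * r ≤ 4 * r := Nat.mul_le_mul_right _ h.c4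
    omega
  obtain ⟨D1, cD1, dX1, out1, big1⟩ := hcon _ hXZ
  rw [Finset.disjoint_union_right] at dX1
  have hsub1 : D1 ⊆ D := conn_subset cD1 h.out (fun v hv => Finset.disjoint_left.1 dX1.1 hv)
    (meet h.big big1)
  obtain ⟨S, hS, hno⟩ := hZS D1 hsub1 cD1 (fun v hv => Finset.disjoint_left.1 dX1.2 hv)
  obtain ⟨K, hSK, hKU, cK, hKh⟩ := hull G S (S ∪ (D \ D1)) (h.conn S hS) Finset.subset_union_left
  have hKD : ∀ x ∈ K, x ∈ S ∨ (x ∈ D ∧ x ∉ D1) := by
    intro x hx
    rcases Finset.mem_union.1 (hKU hx) with h1 | h1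
    · exact Or.inl h1
    · exact Or.inr (Finset.mem_sdiff.1 h1)
  have hSD : ∀ x ∈ S, x ∉ D := fun x hx => Finset.disjoint_left.1 (h.dD S hS) hx
  have hDX : ∀ x ∈ D, x ∉ X := fun x hx => Finset.disjoint_left.1 h.dX hx
  -- the new `X`
  have hXS : (X \ S).card ≤ (C.erase S).card * r := by
    refine card_le (fun x hx => ?_) (fun T hT => ?_)
    · rw [Finset.mem_sdiff] at hx
      obtain ⟨T, hT, hxT⟩ := h.XC x hx.1
      exact ⟨T, Finset.mem_erase.2 ⟨fun he => hx.2 (he ▸ hxT), hT⟩, hxT⟩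
    · exact (Finset.card_le_card (Finset.inter_subset_inter_right
        Finset.sdiff_subset)).trans (h.Xr T (Finset.mem_of_mem_erase hT))
  have hec : (C.erase S).card + 1 = C.card := Finset.card_erase_add_one hS
  have hX' : ((X \ S) ∪ (K ∩ Z)).card ≤ 5 * r := by
    have h5 := Finset.card_union_le (X \ S) (K ∩ Z)
    have h6 : (C.erase S).card * r ≤ 3 * r := Nat.mul_le_mul_right _ (by have := h.c4; omega)
    have h7 : (K ∩ Z).card ≤ r := (Finset.card_le_card Finset.inter_subset_right).trans Zr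
    omega
  obtain ⟨D', cD', dX', out', big'⟩ := hcon _ hX'
  -- no edges leave `D \ K` except to the new `X`
  have hW : ∀ w ∈ D \ K, ∀ u, G.Adj w u → u ∈ D \ K ∨ u ∈ (X \ S) ∪ (K ∩ Z) := by
    intro w hw u hwu
    rw [Finset.mem_sdiff] at hw
    by_cases huW : u ∈ D \ K
    · exact Or.inl huW
    right
    by_cases huD : u ∈ D
    · have huK : u ∈ K := by
        by_contra hc
        exact huW (Finset.mem_sdiff.2 ⟨huD, hc⟩)
      have hw1 : w ∈ D1 := by
        by_contra hc
        exact hw.2 (hKh u huK w (Finset.mem_union_right _ (Finset.mem_sdiff.2 ⟨hw.1, hc⟩))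
          hwu.symm)
      have hu1 : u ∉ D1 := by
        rcases hKD u huK with h1 | h1
        · exact absurd huD (hSD u h1)
        · exact h1.2
      rcases out1 w hw1 u hwu with h1 | h1
      · exact absurd h1 hu1
      · rcases Finset.mem_union.1 h1 with h2 | h2
        · exact absurd h2 (hDX u huD)
        · exact Finset.mem_union_right _ (Finset.mem_inter.2 ⟨huK, h2⟩)
    · have huX : u ∈ X := by
        rcases h.out w hw.1 u hwu with h1 | h1
        · exact absurd h1 huD
        · exact h1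
      refine Finset.mem_union_left _ (Finset.mem_sdiff.2 ⟨huX, fun huS => ?_⟩)
      have hw1 : w ∉ D1 := fun hw1 => hno w hw1 u huS hwu.symm
      exact hw.2 (hKh u (hSK huS) w (Finset.mem_union_right _ (Finset.mem_sdiff.2 ⟨hw.1, hw1⟩))
        hwu.symm)
  have hsub' : D' ⊆ D \ K := by
    refine conn_subset cD' hW (fun v hv => Finset.disjoint_left.1 dX' hv) ?_
    obtain ⟨v, hv, hv1⟩ := meet big1 big'
    refine ⟨v, hv, Finset.mem_sdiff.2 ⟨hsub1 hv1, fun hvK => ?_⟩⟩
    rcases hKD v hvK with h1 | h1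
    · exact hSD v h1 (hsub1 hv1)
    · exact h1.2 hv1
  have hD'D : D' ⊆ D := fun v hv => (Finset.mem_sdiff.1 (hsub' hv)).1
  have hKT : ∀ T ∈ C, T ≠ S → Disjoint K T := by
    intro T hT hne
    rw [Finset.disjoint_left]
    intro x hx hxT
    rcases hKD x hx with h1 | h1
    · exact Finset.disjoint_left.1 (h.disj S hS T hT hne.symm) h1 hxT
    · exact Finset.disjoint_left.1 (h.dD T hT) hxT h1.1
  refine ⟨insert K (C.erase S), (X \ S) ∪ (K ∩ Z), D',
    ⟨?_, ?_, ?_, ?_, ?_, ?_, cD', dX', out', big', ?_⟩, ?_⟩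
  · intro T hT
    rcases Finset.mem_insert.1 hT with rfl | hT
    · exact cK
    · exact h.conn T (Finset.mem_of_mem_erase hT)
  · intro T hT T' hT' hne
    rcases Finset.mem_insert.1 hT with h1 | h1
    · rcases Finset.mem_insert.1 hT' with h2 | h2
      · exact absurd (h1.trans h2.symm) hne
      · rw [h1]
        exact hKT T' (Finset.mem_of_mem_erase h2) (Finset.ne_of_mem_erase h2)
    · rcases Finset.mem_insert.1 hT' with h2 | h2
      · rw [h2]
        exact (hKT T (Finset.mem_of_mem_erase h1) (Finset.ne_of_mem_erase h1)).symm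
      · exact h.disj T (Finset.mem_of_mem_erase h1) T' (Finset.mem_of_mem_erase h2) hne
  · intro T hT T' hT' hne
    rcases Finset.mem_insert.1 hT with h1 | h1
    · rcases Finset.mem_insert.1 hT' with h2 | h2
      · exact absurd (h1.trans h2.symm) hne
      · obtain ⟨u, hu, v, hv, huv⟩ := h.adj S hS T' (Finset.mem_of_mem_erase h2)
          (Finset.ne_of_mem_erase h2).symm
        exact ⟨u, h1 ▸ hSK hu, v, hv, huv⟩
    · rcases Finset.mem_insert.1 hT' with h2 | h2
      · obtain ⟨u, hu, v, hv, huv⟩ := h.adj T (Finset.mem_of_mem_erase h1) S hS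
          (Finset.ne_of_mem_erase h1)
        exact ⟨u, hu, v, h2 ▸ hSK hv, huv⟩
      · exact h.adj T (Finset.mem_of_mem_erase h1) T' (Finset.mem_of_mem_erase h2) hne
  · intro T hT
    rcases Finset.mem_insert.1 hT with rfl | hT
    · rw [Finset.disjoint_left]
      intro x hx hxD'
      exact (Finset.mem_sdiff.1 (hsub' hxD')).2 hx
    · exact Finset.disjoint_of_subset_right hD'D (h.dD T (Finset.mem_of_mem_erase hT))
  · intro x hx
    rcases Finset.mem_union.1 hx with hx | hx
    · rw [Finset.mem_sdiff] at hx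
      obtain ⟨T, hT, hxT⟩ := h.XC x hx.1
      exact ⟨T, Finset.mem_insert_of_mem (Finset.mem_erase.2 ⟨fun he => hx.2 (he ▸ hxT), hT⟩), hxT⟩
    · exact ⟨K, Finset.mem_insert_self _ _, (Finset.mem_inter.1 hx).1⟩
  · intro T hT
    rcases Finset.mem_insert.1 hT with h1 | hT
    · subst h1
      refine le_trans (Finset.card_le_card ?_) Zr
      intro x hx
      rw [Finset.mem_inter, Finset.mem_union] at hx
      rcases hx.1 with h1 | h1
      · rw [Finset.mem_sdiff] at h1
        rcases hKD x hx.2 with h2 | h2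
        · exact absurd h2 h1.2
        · exact absurd h1.1 (hDX x h2.1)
      · exact (Finset.mem_inter.1 h1).2
    · refine le_trans (Finset.card_le_card ?_) (h.Xr T (Finset.mem_of_mem_erase hT))
      intro x hx
      rw [Finset.mem_inter, Finset.mem_union] at hx
      rcases hx.1 with h1 | h1
      · exact Finset.mem_inter.2 ⟨(Finset.mem_sdiff.1 h1).1, hx.2⟩
      · exact absurd (hZ (Finset.mem_inter.1 h1).2)
          (Finset.disjoint_left.1 (h.dD T (Finset.mem_of_mem_erase hT)) hx.2)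
  · have h8 := Finset.card_insert_le K (C.erase S)
    have := h.c4
    omega
  · have h8 := Finset.card_insert_le K (C.erase S)
    have h9 : D'.card < D.card := by
      obtain ⟨v, hv, u, hu, huv⟩ := hA S hS
      have hvK : v ∈ K := hKh u (hSK hu) v (Finset.mem_union_right _ (Finset.mem_sdiff.2
        ⟨hv, fun hv1 => hno v hv1 u hu huv⟩)) huv
      exact Finset.card_lt_card ⟨hD'D, fun hh => (Finset.mem_sdiff.1 (hsub' (hh hv))).2 hvK⟩
    omega

theorem no_state (hG : ¬ K5 G) (hr : 3 * Fintype.card V ≤ r * r)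
    (hcon : ∀ X : Finset V, X.card ≤ 5 * r → ∃ D : Finset V, Conn G D ∧ Disjoint D X ∧
      (∀ u ∈ D, ∀ v, G.Adj u v → v ∈ D ∨ v ∈ X) ∧ Fintype.card V < 2 * D.card) :
    ∀ (N : ℕ) (C : Finset (Finset V)) (X D : Finset V), 10 * D.card + C.card < N →
      ¬ St G r C X D := by
  intro N
  induction N with
  | zero => intro C X D h; omega
  | succ N ih =>
    intro C X D hN h
    have red : ∀ {C' X' D'}, St G r C' X' D' →
        ¬ 10 * D'.card + C'.card < 10 * D.card + C.card :=
      fun h' hlt => ih _ _ _ (by omega) h'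
    obtain ⟨d, hd⟩ := h.cD.1
    have hn : 1 ≤ Fintype.card V := Fintype.card_pos_iff.2 ⟨d⟩
    have hr1 : 1 ≤ r := by
      rcases Nat.eq_zero_or_pos r with h0 | h0
      · rw [h0] at hr; omega
      · exact h0
    by_cases hA : ∀ S ∈ C, ∃ v ∈ D, ∃ u ∈ S, G.Adj u v
    swap
    · push Not at hA
      obtain ⟨S, hS, hno⟩ := hA
      refine red (stepA h (S := S) (fun u hu v hv => hno v hv u hu)) ?_
      have := Finset.card_erase_add_one hS
      omega
    rcases C.eq_empty_or_nonempty with hC | hC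
    · subst hC
      obtain ⟨C', X', D', h', hlt⟩ := stepI hG hcon h (T := {d})
        (Finset.singleton_subset_iff.2 hd) (conn_singleton G d) (by simpa using hr1)
        (fun S hS => absurd hS (Finset.notMem_empty S))
      exact red h' hlt
    · obtain ⟨m, hm⟩ : ∃ m, C.card = m + 1 :=
        ⟨C.card - 1, by have := Finset.card_pos.2 hC; omega⟩
      let e := Finset.equivFinOfCardEq hm
      classical
      have key := prod_lemma G D m (fun i => D.filter (fun v => ∃ u ∈ (e.symm i : Finset V),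
        G.Adj u v)) (fun i => Finset.filter_subset _ _) (fun i => by
          obtain ⟨v, hv, u, hu, huv⟩ := hA _ (e.symm i).2
          exact ⟨v, Finset.mem_filter.2 ⟨hv, u, hu, huv⟩⟩) r hr1
      rcases key with ⟨T, hT, cT, Tr, hTA⟩ | ⟨Z, hZ, Zr, hZS⟩
      · obtain ⟨C', X', D', h', hlt⟩ := stepI hG hcon h hT cT Tr (fun S hS => by
          obtain ⟨v, hv, hvA⟩ := hTA (e ⟨S, hS⟩)
          rw [Equiv.symm_apply_apply, Finset.mem_filter] at hvA
          exact ⟨v, hv, hvA.2⟩)
        exact red h' hlt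
      · have hm3 : m ≤ 3 := by have := h.c4; omega
        have hZr : Z.card ≤ r := by
          have h1 : Z.card * r ≤ r * r :=
            Zr.trans ((Nat.mul_le_mul_right _ hm3).trans hr)
          exact Nat.le_of_mul_le_mul_right h1 hr1
        obtain ⟨C', X', D', h', hlt⟩ := stepII hcon h hA hZ hZr (fun S hS cS hSZ => by
          obtain ⟨i, hi⟩ := hZS S hS cS hSZ
          refine ⟨_, (e.symm i).2, fun v hv u hu huv => hi v hv ?_⟩
          exact Finset.mem_filter.2 ⟨hS hv, u, hu, huv⟩)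
        exact red h' hlt

end

end AstAux

open AstAux

theorem ast [Fintype V] [DecidableEq V] (G : SimpleGraph V) (hG : ¬ K5 G) (r : ℕ)
    (hr : 3 * Fintype.card V ≤ r * r) :
    ∃ X : Finset V, X.card ≤ 5 * r ∧ ∀ D : Finset V, Conn G D → Disjoint D X →
      (∀ u ∈ D, ∀ v, G.Adj u v → v ∈ D ∨ v ∈ X) → 2 * D.card ≤ Fintype.card V := by
  by_contra hc
  have hcon : ∀ X : Finset V, X.card ≤ 5 * r → ∃ D : Finset V, Conn G D ∧ Disjoint D X ∧
      (∀ u ∈ D, ∀ v, G.Adj u v → v ∈ D ∨ v ∈ X) ∧ Fintype.card V < 2 * D.card := by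
    intro X hX
    by_contra h
    refine hc ⟨X, hX, fun D h1 h2 h3 => ?_⟩
    by_contra h4
    exact h ⟨D, h1, h2, h3, by omega⟩
  obtain ⟨D, cD, dX, out, big⟩ := hcon ∅ (by simp)
  refine no_state hG hr hcon (10 * D.card + (∅ : Finset (Finset V)).card + 1) ∅ ∅ D (by omega) ?_
  exact ⟨by simp, by simp, by simp, by simp, by simp, by simp, cD, dX, out, big, by simp⟩

end P512
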