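import Pool.Agent.Lib.P512.ConnB

/-!
# P512.Bfs: a short connected set between two sets, or a small separating layer

Balls: `B 0 = ∅`, `B 1 = X0`, `B (t+1) = B t ∪ (neighbours of B t)` (`Nat.rec`).  Every `v ∈ B t` is in a connected set `P` with
`P.card ≤ t` that meets `X0` (induction: `{v}` for `t = 1`, `conn_insert` in the step).
If `Y0` meets `B r`: first alternative.  Otherwise the layers `B t \ B (t-1)`, `1 ≤ t ≤ r`, are disjoint, so one of them, `Z`, has
`Z.card * r ≤ Fintype.card V` (if all were bigger, the sum of the cards, which is `(B r).card`, would be too big; induction: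
`(B t).card * r > t * card V` otherwise; or `Finset.exists_le_card...`).
Let `S` be connected, meet `X0` and `Y0`, and avoid `Z = B t \ B (t-1)`.  If `t = 1`: `Z = X0`, contradiction.  Otherwise
`W = B (t-1)` has no edges leaving it except to `Z` (neighbours of `B (t-1)` are in `B t`), and `X0 ⊆ B (t-1)`, so `S ⊆ B (t-1)`
(`conn_subset`), but `Y0` does not meet `B r ⊇ B (t-1)`.
-/

namespace P512

open Finset

variable {V : Type*}

namespace BfsAux

open Classical in
/-- the balls: `∅`, `X0`, then add neighbours -/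
private noncomputable def ball [Fintype V] [DecidableEq V] (J : SimpleGraph V) (X0 : Finset V) : ℕ → Finset V
  | 0 => ∅
  | 1 => X0
  | (t + 2) => ball J X0 (t + 1) ∪
      Finset.univ.filter (fun v => ∃ u ∈ ball J X0 (t + 1), J.Adj u v)

private theorem ball_succ [Fintype V] [DecidableEq V] (J : SimpleGraph V) (X0 : Finset V) (t : ℕ) :
    ball J X0 t ⊆ ball J X0 (t + 1) := by
  cases t with
  | zero => simp [ball]
  | succ t =>
    rw [show t + 1 + 1 = t + 2 from rfl]
    conv_rhs => rw [ball]
    exact Finset.subset_union_left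

private theorem ball_mono [Fintype V] [DecidableEq V] (J : SimpleGraph V) (X0 : Finset V) {s t : ℕ} (h : s ≤ t) :
    ball J X0 s ⊆ ball J X0 t := by
  induction h with
  | refl => exact subset_rfl
  | step _ ih => exact ih.trans (ball_succ J X0 _)

private theorem ball_adj [Fintype V] [DecidableEq V] (J : SimpleGraph V) (X0 : Finset V) {t : ℕ} {u v : V}
    (hu : u ∈ ball J X0 t) (h : J.Adj u v) : v ∈ ball J X0 (t + 1) := by
  cases t with
  | zero => simp [ball] at hu
  | succ t =>
    rw [show t + 1 + 1 = t + 2 from rfl]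
    rw [ball]
    apply Finset.mem_union_right
    simp only [Finset.mem_filter, Finset.mem_univ, true_and]
    exact ⟨u, hu, h⟩

private theorem ball_path [Fintype V] [DecidableEq V] (J : SimpleGraph V) (X0 : Finset V) (t : ℕ) :
    ∀ v ∈ ball J X0 t, ∃ P : Finset V, Conn J P ∧ P.card ≤ t ∧ v ∈ P ∧ ∃ x ∈ P, x ∈ X0 := by
  induction t with
  | zero => intro v hv; simp [ball] at hv
  | succ t ih =>
    cases t with
    | zero =>
      intro v hv
      have hv' : v ∈ X0 := by simpa [ball] using hv
      exact ⟨{v}, conn_singleton J v, by simp, by simp, v, by simp, hv'⟩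
    | succ t =>
      intro v hv
      rw [show t + 1 + 1 = t + 2 from rfl, ball] at hv
      rcases Finset.mem_union.1 hv with h | h
      · obtain ⟨P, h1, h2, h3, h4⟩ := ih v h
        exact ⟨P, h1, by omega, h3, h4⟩
      · simp only [Finset.mem_filter, Finset.mem_univ, true_and] at h
        obtain ⟨u, hu, hadj⟩ := h
        obtain ⟨P, h1, h2, h3, x, hx1, hx2⟩ := ih u hu
        refine ⟨insert v P, conn_insert h1 ⟨u, h3, hadj⟩, ?_, Finset.mem_insert_self _ _,
          x, Finset.mem_insert_of_mem hx1, hx2⟩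
        exact (Finset.card_insert_le _ _).trans (by omega)

private theorem ball_card [Fintype V] [DecidableEq V] (J : SimpleGraph V) (X0 : Finset V) (r : ℕ)
    (hcon : ∀ t, t < r → Fintype.card V < (ball J X0 (t + 1) \ ball J X0 t).card * r) (t : ℕ)
    (ht : t < r) : (t + 1) * Fintype.card V < (ball J X0 (t + 1)).card * r := by
  have key : ∀ s, (ball J X0 (s + 1)).card
      = (ball J X0 (s + 1) \ ball J X0 s).card + (ball J X0 s).card := by
    intro s
    exact (Finset.card_sdiff_add_card_eq_card (ball_succ J X0 s)).symm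
  induction t with
  | zero =>
    have h := hcon 0 ht
    rw [key 0, add_mul (Finset.card _) (Finset.card _) r]
    omega
  | succ t ih =>
    have h := hcon (t + 1) ht
    have h2 := ih (by omega)
    rw [key (t + 1), add_mul (Finset.card _) (Finset.card _) r, add_mul (t + 1) 1]
    omega

end BfsAux

open BfsAux in
theorem bfs [Fintype V] [DecidableEq V] (J : SimpleGraph V) (X0 Y0 : Finset V) (r : ℕ)
    (hr : 1 ≤ r) :
    (∃ P : Finset V, Conn J P ∧ P.card ≤ r ∧ (∃ v ∈ P, v ∈ X0) ∧ (∃ v ∈ P, v ∈ Y0)) ∨
    ∃ Z : Finset V, Z.card * r ≤ Fintype.card V ∧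
      ∀ S : Finset V, Conn J S → (∃ v ∈ S, v ∈ X0) → (∃ v ∈ S, v ∈ Y0) → ∃ v ∈ S, v ∈ Z := by
  by_cases hY : ∃ v ∈ Y0, v ∈ ball J X0 r
  · obtain ⟨v, hv, hvb⟩ := hY
    obtain ⟨P, h1, h2, h3, h4⟩ := ball_path J X0 r v hvb
    exact Or.inl ⟨P, h1, h2, h4, v, h3, hv⟩
  · right
    push Not at hY
    obtain ⟨t, ht, hc⟩ : ∃ t, t < r ∧
        (ball J X0 (t + 1) \ ball J X0 t).card * r ≤ Fintype.card V := by
      by_contra hcon
      push Not at hcon
      have h := ball_card J X0 r hcon (r - 1) (by omega)
      rw [Nat.sub_add_cancel hr] at h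
      have h2 : (ball J X0 r).card * r ≤ Fintype.card V * r :=
        Nat.mul_le_mul_right _ (Finset.card_le_univ _)
      rw [mul_comm r] at h
      omega
    refine ⟨ball J X0 (t + 1) \ ball J X0 t, hc, ?_⟩
    rintro S hS ⟨x, hxS, hx⟩ ⟨y, hyS, hy⟩
    by_contra hno
    push Not at hno
    have hX : x ∈ ball J X0 1 := by simpa [ball] using hx
    have hxt : x ∈ ball J X0 t := by
      by_contra hxn
      exact hno x hxS (Finset.mem_sdiff.2 ⟨ball_mono J X0 (by omega) hX, hxn⟩)
    have hsub := conn_subset (W := ball J X0 t) (X := ball J X0 (t + 1) \ ball J X0 t) hS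
      (fun u hu v hadj => by
        by_cases hv : v ∈ ball J X0 t
        · exact Or.inl hv
        · exact Or.inr (Finset.mem_sdiff.2 ⟨ball_adj J X0 hu hadj, hv⟩))
      hno ⟨x, hxS, hxt⟩
    exact hY y hy (ball_mono J X0 (by omega) (hsub hyS))

end P512
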