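import Pool.Agent.Lib.P512.SupB

/-!
# P512.SepCount: counting by separations

`V = Fin N`.  The map from `{G // ¬ K5 G}` to the sigma type over pairs `(X, A)` of disjoint sets with `X.card ≤ s`, `3 * A.card ≤ 2 * N`, `3 * (N - X.card - A.card) ≤ 2 * N`, of
`{G1 : SimpleGraph {v // v ∈ X ∪ A} // ¬ K5 G1} × {G2 : SimpleGraph {v // v ∈ Aᶜ} // ¬ K5 G2}`, `G ↦ (X, A, G.comap (subA (X ∪ A)), G.comap (subA Aᶜ))` (choice of `X`, `A`) is injective: an edge of `G` with one end in `A` is inside `X ∪ A`,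
the others are inside `Aᶜ`.  (`K5 (G.comap f) → K5 G` by `k5_comap` and `K5In.k5`.)
`card {v // v ∈ X ∪ A} = X.card + A.card`, `card {v // v ∈ Aᶜ} = N - A.card`, `card_g`.  The number of pairs `(X, A)` with `X.card = x`, `A.card = a` is `N.choose x * (N - x).choose a` (`X ∈ powersetCard x univ`, `A ∈ powersetCard a (univ \ X)`).
-/

namespace P512

open Finset

namespace SepCountAux

theorem k5_of_comap {V W : Type*} [Fintype W] (G : SimpleGraph V) (f : W ↪ V)
    (h : K5 (G.comap f)) : K5 G := by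
  obtain ⟨B, hB, _⟩ := (k5_comap G f).1 h
  exact ⟨B, hB⟩

theorem adj_of {N : ℕ} {X A : Finset (Fin N)} {G G' : SimpleGraph (Fin N)}
    (h1 : ∀ u ∈ A, ∀ v, G.Adj u v → v ∈ A ∨ v ∈ X)
    (e1 : G.comap (subA (X ∪ A)) = G'.comap (subA (X ∪ A)))
    (e2 : G.comap (subA Aᶜ) = G'.comap (subA Aᶜ)) {u v : Fin N} (h : G.Adj u v) :
    G'.Adj u v := by
  have key1 : ∀ a b : Fin N, a ∈ X ∪ A → b ∈ X ∪ A → G.Adj a b → G'.Adj a b := by
    intro a b ha hb hab
    have h2 : (G.comap (subA (X ∪ A))).Adj ⟨a, ha⟩ ⟨b, hb⟩ := hab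
    rw [e1] at h2
    exact h2
  have key2 : ∀ a b : Fin N, a ∈ Aᶜ → b ∈ Aᶜ → G.Adj a b → G'.Adj a b := by
    intro a b ha hb hab
    have h2 : (G.comap (subA Aᶜ)).Adj ⟨a, ha⟩ ⟨b, hb⟩ := hab
    rw [e2] at h2
    exact h2
  by_cases hu : u ∈ A
  · refine key1 u v (mem_union_right _ hu) ?_ h
    rcases h1 u hu v h with h3 | h3
    · exact mem_union_right _ h3
    · exact mem_union_left _ h3
  · by_cases hv : v ∈ A
    · refine key1 u v ?_ (mem_union_right _ hv) h
      rcases h1 v hv u h.symm with h3 | h3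
      · exact mem_union_right _ h3
      · exact mem_union_left _ h3
    · exact key2 u v (mem_compl.2 hu) (mem_compl.2 hv) h

theorem fiber_le {N : ℕ} (X A : Finset (Fin N)) (hd : Disjoint A X)
    (P : SimpleGraph (Fin N) → Prop)
    (hP : ∀ G, P G → ¬ K5 G ∧ ∀ u ∈ A, ∀ v, G.Adj u v → v ∈ A ∨ v ∈ X) :
    Nat.card {G : SimpleGraph (Fin N) // P G} ≤ g (X.card + A.card) * g (N - A.card) := by
  classical
  have c1 : Fintype.card {v // v ∈ X ∪ A} = X.card + A.card := by
    rw [Fintype.card_coe, card_union_of_disjoint hd.symm]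
  have c2 : Fintype.card {v // v ∈ Aᶜ} = N - A.card := by
    rw [Fintype.card_coe, card_compl, Fintype.card_fin]
  have g1 := card_g {v // v ∈ X ∪ A}
  have g2 := card_g {v // v ∈ Aᶜ}
  rw [c1] at g1
  rw [c2] at g2
  rw [← g1, ← g2, ← Nat.card_prod]
  let φ : {G : SimpleGraph (Fin N) // P G} →
      {G1 : SimpleGraph {v // v ∈ X ∪ A} // ¬ K5 G1} × {G2 : SimpleGraph {v // v ∈ Aᶜ} // ¬ K5 G2} :=
    fun G => (⟨G.1.comap (subA (X ∪ A)), fun hk => (hP G.1 G.2).1 (k5_of_comap G.1 _ hk)⟩,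
      ⟨G.1.comap (subA Aᶜ), fun hk => (hP G.1 G.2).1 (k5_of_comap G.1 _ hk)⟩)
  refine Nat.card_le_card_of_injective φ ?_
  intro G G' hGG
  have e1 : G.1.comap (subA (X ∪ A)) = G'.1.comap (subA (X ∪ A)) :=
    congrArg (fun z => z.1.1) hGG
  have e2 : G.1.comap (subA Aᶜ) = G'.1.comap (subA Aᶜ) :=
    congrArg (fun z => z.2.1) hGG
  apply Subtype.ext
  ext u v
  exact ⟨fun h => adj_of (hP G.1 G.2).2 e1 e2 h, fun h => adj_of (hP G'.1 G'.2).2 e1.symm e2.symm h⟩

theorem pairs_le (N x a : ℕ) :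
    (univ.filter (fun p : Finset (Fin N) × Finset (Fin N) =>
      Disjoint p.2 p.1 ∧ p.1.card = x ∧ p.2.card = a)).card ≤ N.choose x * (N - x).choose a := by
  classical
  have hsub : univ.filter (fun p : Finset (Fin N) × Finset (Fin N) =>
      Disjoint p.2 p.1 ∧ p.1.card = x ∧ p.2.card = a) ⊆
      (powersetCard x (univ : Finset (Fin N))).biUnion
        (fun X => (powersetCard a Xᶜ).image (fun A => (X, A))) := by
    rintro ⟨X, A⟩ hp
    simp only [mem_filter, mem_univ, true_and] at hp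
    obtain ⟨h1, h2, h3⟩ := hp
    rw [mem_biUnion]
    refine ⟨X, mem_powersetCard.2 ⟨subset_univ _, h2⟩, mem_image.2 ⟨A, ?_, rfl⟩⟩
    rw [mem_powersetCard]
    refine ⟨fun z hz => ?_, h3⟩
    rw [mem_compl]
    exact fun hzX => (disjoint_left.1 h1) hz hzX
  refine (card_le_card hsub).trans (card_biUnion_le.trans ?_)
  have h1 : ∀ X ∈ powersetCard x (univ : Finset (Fin N)),
      ((powersetCard a Xᶜ).image (fun A => (X, A))).card ≤ (N - x).choose a := by
    intro X hX
    refine card_image_le.trans ?_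
    rw [card_powersetCard, card_compl, Fintype.card_fin, (mem_powersetCard.1 hX).2]
  refine (sum_le_sum h1).trans ?_
  rw [sum_const, card_powersetCard, card_univ, Fintype.card_fin, smul_eq_mul]

end SepCountAux

open SepCountAux

theorem sep_count (N s : ℕ) (hs : ∀ G : SimpleGraph (Fin N), ¬ K5 G →
      ∃ X A : Finset (Fin N), Disjoint A X ∧ X.card ≤ s ∧ 3 * A.card ≤ 2 * N ∧
        3 * (N - X.card - A.card) ≤ 2 * N ∧ ∀ u ∈ A, ∀ v, G.Adj u v → v ∈ A ∨ v ∈ X) :
    g N ≤ ∑ x ∈ range (s + 1), ∑ a ∈ range (N + 1),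
      if x + a ≤ N ∧ 3 * a ≤ 2 * N ∧ 3 * (N - x - a) ≤ 2 * N then
        N.choose x * (N - x).choose a * (g (x + a) * g (N - a)) else 0 := by
  classical
  -- the choice of the separation
  let Good := {G : SimpleGraph (Fin N) // ¬ K5 G}
  choose X A hAX hXs hA2 hN2 hadj using hs
  let f : Good → Finset (Fin N) × Finset (Fin N) := fun G => (X G.1 G.2, A G.1 G.2)
  let T : Finset (Finset (Fin N) × Finset (Fin N)) := univ.filter (fun p =>
    Disjoint p.2 p.1 ∧ p.1.card ≤ s ∧ 3 * p.2.card ≤ 2 * N ∧ 3 * (N - p.1.card - p.2.card) ≤ 2 * N)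
  have hfT : ∀ G ∈ (univ : Finset Good), f G ∈ T := by
    intro G _
    simp only [T, f, mem_filter, mem_univ, true_and]
    exact ⟨hAX _ _, hXs _ _, hA2 _ _, hN2 _ _⟩
  have hg : g N = ∑ p ∈ T, (univ.filter (fun G : Good => f G = p)).card := by
    unfold g
    rw [Nat.card_eq_fintype_card, ← card_univ]
    exact card_eq_sum_card_fiberwise hfT
  have hfib : ∀ p ∈ T, (univ.filter (fun G : Good => f G = p)).card ≤
      g (p.1.card + p.2.card) * g (N - p.2.card) := by
    rintro ⟨X0, A0⟩ hp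
    simp only [T, mem_filter, mem_univ, true_and] at hp
    rw [← Fintype.card_subtype, ← Nat.card_eq_fintype_card]
    refine le_trans ?_ (fiber_le X0 A0 hp.1
      (fun G => ∃ hG : ¬ K5 G, X G hG = X0 ∧ A G hG = A0) ?_)
    · refine Nat.card_le_card_of_injective
        (fun G => (⟨G.1.1, G.1.2, congrArg Prod.fst G.2, congrArg Prod.snd G.2⟩ :
          {G : SimpleGraph (Fin N) // ∃ hG : ¬ K5 G, X G hG = X0 ∧ A G hG = A0})) ?_
      intro G G' h
      have h2 := Subtype.ext_iff.1 h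
      exact Subtype.ext (Subtype.ext h2)
    · rintro G ⟨hG, h1, h2⟩
      refine ⟨hG, fun u hu v huv => ?_⟩
      have := hadj G hG u (h2 ▸ hu) v huv
      rwa [h1, h2] at this
  rw [hg]
  refine (sum_le_sum hfib).trans ?_
  have hmap : ∀ p ∈ T, (p.1.card, p.2.card) ∈ range (s + 1) ×ˢ range (N + 1) := by
    rintro ⟨X0, A0⟩ hp
    simp only [T, mem_filter, mem_univ, true_and] at hp
    simp only [mem_product, mem_range]
    have : A0.card ≤ N := by
      have := card_le_univ A0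
      rwa [Fintype.card_fin] at this
    omega
  rw [← sum_fiberwise_of_maps_to hmap, sum_product]
  refine sum_le_sum (fun x _ => sum_le_sum (fun a _ => ?_))
  have hconst : ∀ p ∈ T.filter (fun p => (p.1.card, p.2.card) = (x, a)),
      g (p.1.card + p.2.card) * g (N - p.2.card) = g (x + a) * g (N - a) := by
    intro p hp
    obtain ⟨h1, h2⟩ := Prod.mk.inj (mem_filter.1 hp).2
    rw [h1, h2]
  rw [sum_congr rfl hconst, sum_const, smul_eq_mul]
  by_cases hc : x + a ≤ N ∧ 3 * a ≤ 2 * N ∧ 3 * (N - x - a) ≤ 2 * N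
  · rw [if_pos hc]
    refine Nat.mul_le_mul_right _ ?_
    refine le_trans (card_le_card ?_) (pairs_le N x a)
    intro p hp
    obtain ⟨h1, h2⟩ := mem_filter.1 hp
    obtain ⟨h3, h4⟩ := Prod.mk.inj h2
    simp only [T, mem_filter, mem_univ, true_and] at h1
    exact mem_filter.2 ⟨mem_univ _, h1.1, h3, h4⟩
  · rw [if_neg hc]
    have hempty : T.filter (fun p => (p.1.card, p.2.card) = (x, a)) = ∅ := by
      rw [filter_eq_empty_iff]
      intro p hp heq
      obtain ⟨h3, h4⟩ := Prod.mk.inj heq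
      simp only [T, mem_filter, mem_univ, true_and] at hp
      apply hc
      rw [← h3, ← h4]
      refine ⟨?_, hp.2.2.1, hp.2.2.2⟩
      rw [← card_union_of_disjoint hp.1.symm]
      have := card_le_univ (p.1 ∪ p.2)
      rwa [Fintype.card_fin] at this
    rw [hempty, card_empty, Nat.zero_mul]

end P512
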