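import Pool.Agent.Lib.P512.Defs

/-!
# P512.SepReal: the biggest term of the sum

All terms satisfy: with `b = N - x - a`, `N.choose x * (N-x).choose a = N! / (x! a! b!)`, `(x+a)! / a! ≤ (x+a)^x ≤ N^x`, `(N-a)! / b! = (x+b)! / b! ≤ N^x`,
`1 ≤ x!`.  So the term divided by `N!` is at most `N^(2x) * (f (x+a) / (x+a)!) * (f (N-a) / (N-a)!)`.
There are `(s+1)(N+1)` terms: if for every admissible `(x, a)` the claimed inequality failed, then `f N / N!` would be larger than the sum of all terms divided by `N!`.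
-/

namespace P512

open Finset

namespace SepRealAux

theorem fact_le (a x N : ℕ) (h : a + x ≤ N) :
    (a + x).factorial ≤ a.factorial * N ^ x := by
  rw [← Nat.factorial_mul_ascFactorial]
  exact Nat.mul_le_mul_left _ ((Nat.ascFactorial_le_pow_add a x).trans (Nat.pow_le_pow_left h x))

theorem key_nat (N x a : ℕ) (h : x + a ≤ N) :
    N.choose x * (N - x).choose a * ((x + a).factorial * (N - a).factorial) ≤
      N ^ (2 * x) * N.factorial := by
  obtain ⟨b, rfl⟩ : ∃ b, N = x + a + b := ⟨N - (x + a), by omega⟩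
  have e1 : x + a + b - x = a + b := by omega
  have e2 : x + a + b - a = b + x := by omega
  have c1 : (x + a + b).choose x * x.factorial * (a + b).factorial = (x + a + b).factorial := by
    have := Nat.choose_mul_factorial_mul_factorial (n := x + a + b) (k := x) (by omega)
    rwa [e1] at this
  have c2 : (a + b).choose a * a.factorial * b.factorial = (a + b).factorial := by
    have := Nat.choose_mul_factorial_mul_factorial (n := a + b) (k := a) (by omega)
    rwa [show a + b - a = b by omega] at this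
  have f1 : (x + a).factorial ≤ a.factorial * (x + a + b) ^ x := by
    rw [Nat.add_comm x a]
    exact fact_le a x _ (by omega)
  have f2 : (b + x).factorial ≤ b.factorial * (x + a + b) ^ x := fact_le b x _ (by omega)
  rw [e1, e2]
  set M := x + a + b with hM
  calc M.choose x * (a + b).choose a * ((x + a).factorial * (b + x).factorial)
      ≤ M.choose x * (a + b).choose a *
          ((a.factorial * M ^ x) * (b.factorial * M ^ x)) :=
        Nat.mul_le_mul_left _ (Nat.mul_le_mul f1 f2)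
    _ = M ^ (2 * x) * (M.choose x * ((a + b).choose a * a.factorial * b.factorial)) := by
        rw [two_mul, pow_add]; ring
    _ ≤ M ^ (2 * x) * (M.choose x * ((a + b).choose a * a.factorial * b.factorial)
          * x.factorial) := by
        refine Nat.mul_le_mul_left _ ?_
        exact Nat.le_mul_of_pos_right _ (Nat.factorial_pos x)
    _ = M ^ (2 * x) * M.factorial := by
        rw [c2, ← c1]; ring

theorem term_real (f : ℕ → ℕ) (N x a : ℕ) (h : x + a ≤ N) :
    ((N.choose x * (N - x).choose a * (f (x + a) * f (N - a)) : ℕ) : ℝ) / N.factorial ≤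
      (N : ℝ) ^ (2 * x) * ((f (x + a) : ℝ) / (x + a).factorial) *
        ((f (N - a) : ℝ) / (N - a).factorial) := by
  have hk : ((N.choose x * (N - x).choose a * ((x + a).factorial * (N - a).factorial) : ℕ) : ℝ) ≤
      ((N ^ (2 * x) * N.factorial : ℕ) : ℝ) := by exact_mod_cast key_nat N x a h
  have p1 : (0 : ℝ) < ((x + a).factorial : ℝ) := by exact_mod_cast Nat.factorial_pos _
  have p2 : (0 : ℝ) < ((N - a).factorial : ℝ) := by exact_mod_cast Nat.factorial_pos _
  have p3 : (0 : ℝ) < (N.factorial : ℝ) := by exact_mod_cast Nat.factorial_pos _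
  have q1 : (0 : ℝ) ≤ (f (x + a) : ℝ) := Nat.cast_nonneg _
  have q2 : (0 : ℝ) ≤ (f (N - a) : ℝ) := Nat.cast_nonneg _
  have e : (N : ℝ) ^ (2 * x) * ((f (x + a) : ℝ) / (x + a).factorial) *
        ((f (N - a) : ℝ) / (N - a).factorial) =
      ((N : ℝ) ^ (2 * x) * ((f (x + a) : ℝ) * (f (N - a) : ℝ))) /
        (((x + a).factorial : ℝ) * ((N - a).factorial : ℝ)) := by
    field_simp
  rw [e, div_le_div_iff₀ p3 (mul_pos p1 p2)]
  push_cast at hk ⊢
  have hq := mul_nonneg q1 q2
  nlinarith [mul_le_mul_of_nonneg_right hk hq]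

end SepRealAux

open SepRealAux

theorem sep_real (f : ℕ → ℕ) (N s : ℕ) (hN : 1 ≤ N) (hpos : 0 < f N)
    (hf : f N ≤ ∑ x ∈ range (s + 1), ∑ a ∈ range (N + 1),
      if x + a ≤ N ∧ 3 * a ≤ 2 * N ∧ 3 * (N - x - a) ≤ 2 * N then
        N.choose x * (N - x).choose a * (f (x + a) * f (N - a)) else 0) :
    ∃ x a : ℕ, x ≤ s ∧ x + a ≤ N ∧ 3 * a ≤ 2 * N ∧ 3 * (N - x - a) ≤ 2 * N ∧
      (f N : ℝ) / N.factorial ≤ (s + 1) * (N + 1) * (N : ℝ) ^ (2 * x) *
        ((f (x + a) : ℝ) / (x + a).factorial) * ((f (N - a) : ℝ) / (N - a).factorial) := by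
  by_contra hcon
  push Not at hcon
  have p3 : (0 : ℝ) < (N.factorial : ℝ) := by exact_mod_cast Nat.factorial_pos _
  have hfN : (0 : ℝ) < (f N : ℝ) / N.factorial := div_pos (by exact_mod_cast hpos) p3
  have hs : (0 : ℝ) < (s : ℝ) + 1 := by positivity
  have hN1 : (0 : ℝ) < (N : ℝ) + 1 := by positivity
  set c : ℝ := ((f N : ℝ) / N.factorial) / (((s : ℝ) + 1) * ((N : ℝ) + 1)) with hc
  have hcpos : 0 < c := div_pos hfN (mul_pos hs hN1)
  have hterm : ∀ x ∈ range (s + 1), ∀ a ∈ range (N + 1),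
      (((if x + a ≤ N ∧ 3 * a ≤ 2 * N ∧ 3 * (N - x - a) ≤ 2 * N then
        N.choose x * (N - x).choose a * (f (x + a) * f (N - a)) else 0 : ℕ)) : ℝ) / N.factorial
        < c := by
    intro x hx a _
    split_ifs with hcond
    · obtain ⟨h1, h2, h3⟩ := hcond
      have hlt := hcon x a (Nat.lt_succ_iff.1 (mem_range.1 hx)) h1 h2 h3
      have hle := term_real f N x a h1
      refine lt_of_le_of_lt hle ?_
      rw [hc, lt_div_iff₀ (mul_pos hs hN1)]
      calc _ = (s + 1) * (N + 1) * (N : ℝ) ^ (2 * x) *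
            ((f (x + a) : ℝ) / (x + a).factorial) * ((f (N - a) : ℝ) / (N - a).factorial) := by
              ring
        _ < _ := hlt
    · simpa using hcpos
  have hsum : (∑ x ∈ range (s + 1), ∑ a ∈ range (N + 1),
      (((if x + a ≤ N ∧ 3 * a ≤ 2 * N ∧ 3 * (N - x - a) ≤ 2 * N then
        N.choose x * (N - x).choose a * (f (x + a) * f (N - a)) else 0 : ℕ)) : ℝ) / N.factorial)
        < ∑ x ∈ range (s + 1), ∑ a ∈ range (N + 1), c := by
    refine sum_lt_sum_of_nonempty ⟨0, by simp⟩ fun x hx => ?_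
    exact sum_lt_sum_of_nonempty ⟨0, by simp⟩ fun a ha => hterm x hx a ha
  have hR : ∑ x ∈ range (s + 1), ∑ a ∈ range (N + 1), c = (f N : ℝ) / N.factorial := by
    rw [sum_const, sum_const, card_range, card_range, nsmul_eq_mul, nsmul_eq_mul, hc]
    push_cast
    field_simp
  have hL : (f N : ℝ) / N.factorial ≤ ∑ x ∈ range (s + 1), ∑ a ∈ range (N + 1),
      (((if x + a ≤ N ∧ 3 * a ≤ 2 * N ∧ 3 * (N - x - a) ≤ 2 * N then
        N.choose x * (N - x).choose a * (f (x + a) * f (N - a)) else 0 : ℕ)) : ℝ) /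
          N.factorial := by
    have h1 : ((f N : ℕ) : ℝ) ≤ ((∑ x ∈ range (s + 1), ∑ a ∈ range (N + 1),
      if x + a ≤ N ∧ 3 * a ≤ 2 * N ∧ 3 * (N - x - a) ≤ 2 * N then
        N.choose x * (N - x).choose a * (f (x + a) * f (N - a)) else 0 : ℕ) : ℝ) := by
      exact_mod_cast hf
    have h2 := div_le_div_of_nonneg_right h1 p3.le
    refine h2.trans (le_of_eq ?_)
    rw [Nat.cast_sum, Finset.sum_div]
    refine sum_congr rfl fun x _ => ?_
    rw [Nat.cast_sum, Finset.sum_div]
  rw [hR] at hsum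
  exact lt_irrefl _ (lt_of_le_of_lt hL hsum)

end P512
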