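import Pool.Agent.Lib.P512.SupC

/-!
# P512.SupH: the sequence `h`

`c_one`: on `Fin 1` there is exactly one simple graph; it is connected and has no `K_5` model (five disjoint nonempty subsets of a set with one element are impossible).  `Nat.card_eq_one_iff_unique` or `Nat.card_unique`.
`h_super`: for `a ≤ b` divide `super_mul` by `(a+b)!` : `(a+b).choose a = (a+b)! / (a! b!)` (`Nat.add_choose_mul_factorial_mul_factorial`), and `N * c N / N! = h N`.  For `b ≤ a` exchange `a` and `b`.
`h_one_le`: induction on `n` with `h 1 = 1` and `h_super n 1`.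
-/

namespace P512

open Finset

theorem c_one : c 1 = 1 := by
  unfold c
  rw [Nat.card_eq_one_iff_unique]
  refine ⟨⟨fun G H => ?_⟩, ⟨⟨⊥, ?_, ?_⟩⟩⟩
  · apply Subtype.ext
    ext u v
    have huv : u = v := Subsingleton.elim u v
    subst huv
    exact ⟨fun h => absurd h (SimpleGraph.irrefl _), fun h => absurd h (SimpleGraph.irrefl _)⟩
  · rintro ⟨B, h1, h2, _⟩
    obtain ⟨x, hx⟩ := (h1 0).1
    obtain ⟨y, hy⟩ := (h1 1).1
    have hxy : x = y := Subsingleton.elim x y
    subst hxy
    exact Finset.disjoint_left.1 (h2 0 1 (by decide)) hx hy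
  · have hp : (⊥ : SimpleGraph (Fin 1)).Preconnected := by
      intro u v
      have huv : u = v := Subsingleton.elim u v
      subst huv
      exact SimpleGraph.Reachable.refl u
    exact { preconnected := hp, nonempty := ⟨0⟩ }

theorem SupHAux.h_super_le (a b : ℕ) (ha : 1 ≤ a) (hab : a ≤ b) : h a * h b ≤ h (a + b) := by
  have h1 := super_mul a b ha hab
  have h2 : ((a + b).choose a : ℝ) * (a * b * (c a * c b)) ≤ ((a + b : ℕ) : ℝ) * c (a + b) := by
    exact_mod_cast h1
  have h3 : ((a + b).choose a : ℝ) * (a.factorial * b.factorial) = (a + b).factorial := by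
    have := Nat.add_choose_mul_factorial_mul_factorial a b
    rw [← this, Nat.choose_symm_add]
    push_cast
    ring
  have hfa : (0 : ℝ) < a.factorial := by exact_mod_cast Nat.factorial_pos a
  have hfb : (0 : ℝ) < b.factorial := by exact_mod_cast Nat.factorial_pos b
  have hfab : (0 : ℝ) < (a + b).factorial := by exact_mod_cast Nat.factorial_pos (a + b)
  unfold h
  rw [le_div_iff₀ hfab, ← h3]
  refine le_trans (le_of_eq ?_) h2
  field_simp

theorem h_super (a b : ℕ) (ha : 1 ≤ a) (hb : 1 ≤ b) : h a * h b ≤ h (a + b) := by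
  rcases le_total a b with hab | hab
  · exact SupHAux.h_super_le a b ha hab
  · rw [mul_comm, add_comm]
    exact SupHAux.h_super_le b a hb hab

theorem h_one : h 1 = 1 := by
  simp [h, c_one]

theorem h_one_le (n : ℕ) (hn : 1 ≤ n) : 1 ≤ h n := by
  induction n, hn using Nat.le_induction with
  | base => rw [h_one]
  | succ n hn ih =>
    have h1 := h_super n 1 hn le_rfl
    rw [h_one, mul_one] at h1
    exact ih.trans h1

end P512
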