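import Pool.Agent.Lib.P512.Sep
import Pool.Agent.Lib.P512.SupH
import Pool.Agent.Lib.P512.Apex
import Pool.Agent.Lib.P512.SepCount
import Pool.Agent.Lib.P512.SepReal

/-!
# P512.LogRec: the sequence `log h` satisfies the hypotheses `Hyp`

`one`: `h_one`.  `sup`: `h_super`, `h_one_le`, `Real.log_mul`.
`triv`: `c n ≤ 2 ^ (n * n)` (graphs inject into relations: `G ↦ fun p : Fin n × Fin n => decide (G.Adj p.1 p.2)`), `n ≤ n!`, so `h n ≤ 2 ^ (n * n)`, and `log 2 ≤ 1`.
`rcr`: let `s = ⌊14 * sqrt N⌋₊`; `separation` gives the hypothesis of `sep_count` (`X.card ≤ s` by `Nat.le_floor`), `sep_real` with `f = g` (`0 < g N`: `c_le` and `h_one_le`, which gives `0 < c N`) gives `x`, `a`.  Take `a' = x + a + 1` and `b' = N - a + 1`.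
`N < 3 a'`: from `3 * (N - x - a) ≤ 2 * N`; `N < 3 b'`: from `3 * a ≤ 2 * N`; `a' + b' = N + x + 2 ≤ N + 14 sqrt N + 2 ≤ N + 16 sqrt N`.
`g m / m! ≤ c (m+1) / m! = h (m+1)` (`g_le`, `h (m+1) = (m+1) * c (m+1) / (m+1)!`), and `h N = N * c N / N! ≤ N * (g N / N!)`.  So
`h N ≤ N * (s+1) * (N+1) * N^(2x) * h a' * h b'`; take logarithms: `log (s+1) ≤ log (15 * N) ≤ 5 log N`, `log (N+1) ≤ 2 log N`, `2 x log N ≤ 28 sqrt N log N`, `log N ≤ sqrt N * log N`.
-/

namespace P512

open Finset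

namespace LogRecAux

lemma c_le_pow (n : ℕ) : c n ≤ 2 ^ (n * n) := by
  classical
  have h1 : c n ≤ Nat.card (SimpleGraph (Fin n)) :=
    Nat.card_le_card_of_injective (fun G : {G : SimpleGraph (Fin n) // ¬ K5 G ∧ G.Connected} => G.1)
      Subtype.val_injective
  have h2 : Nat.card (SimpleGraph (Fin n)) ≤ Nat.card (Fin n × Fin n → Bool) := by
    refine Nat.card_le_card_of_injective
      (fun G : SimpleGraph (Fin n) => fun p : Fin n × Fin n => decide (G.Adj p.1 p.2)) ?_
    intro G G' hG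
    ext u v
    have := congrFun hG (u, v)
    simpa using this
  have h3 : Nat.card (Fin n × Fin n → Bool) = 2 ^ (n * n) := by
    rw [Nat.card_eq_fintype_card]
    simp
  omega

lemma h_pos (n : ℕ) (hn : 1 ≤ n) : 0 < h n := lt_of_lt_of_le one_pos (h_one_le n hn)

lemma h_le_pow (n : ℕ) : h n ≤ 2 ^ (n * n) := by
  have h1 : (n : ℝ) ≤ n.factorial := by exact_mod_cast Nat.self_le_factorial n
  have h2 : (c n : ℝ) ≤ 2 ^ (n * n) := by exact_mod_cast c_le_pow n
  have h3 : (0 : ℝ) < n.factorial := by exact_mod_cast Nat.factorial_pos n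
  rw [h, div_le_iff₀ h3]
  calc (n : ℝ) * c n ≤ n.factorial * 2 ^ (n * n) :=
        mul_le_mul h1 h2 (by positivity) (by positivity)
    _ = _ := by ring

lemma g_div_le (m : ℕ) : (g m : ℝ) / m.factorial ≤ h (m + 1) := by
  have h1 : (g m : ℝ) ≤ c (m + 1) := by exact_mod_cast g_le m
  have h3 : (0 : ℝ) < m.factorial := by exact_mod_cast Nat.factorial_pos m
  have h4 : h (m + 1) = (c (m + 1) : ℝ) / m.factorial := by
    rw [h, Nat.factorial_succ]
    push_cast
    have : (m : ℝ) + 1 ≠ 0 := by positivity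
    field_simp
  rw [h4]
  gcongr

lemma h_le_g (N : ℕ) : h N ≤ N * ((g N : ℝ) / N.factorial) := by
  have h1 : (c N : ℝ) ≤ g N := by exact_mod_cast c_le N
  rw [h, mul_div_assoc]
  gcongr

lemma g_pos (N : ℕ) (hN : 1 ≤ N) : 0 < g N := by
  by_contra hg
  have h0 : g N = 0 := by omega
  have h1 := h_le_g N
  have h2 := h_pos N hN
  simp [h0] at h1
  linarith

lemma key (N : ℕ) (hN : 2 ≤ N) : ∃ x a : ℕ, (x : ℝ) ≤ 14 * Real.sqrt N ∧ x + a ≤ N ∧
    3 * a ≤ 2 * N ∧ 3 * (N - x - a) ≤ 2 * N ∧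
    h N ≤ N * (14 * Real.sqrt N + 1) * (N + 1) * (N : ℝ) ^ (2 * x) *
      h (x + a + 1) * h (N - a + 1) := by
  have hs0 : (0 : ℝ) ≤ 14 * Real.sqrt N := by positivity
  have hf : g N ≤ ∑ x ∈ range (⌊14 * Real.sqrt N⌋₊ + 1), ∑ a ∈ range (N + 1),
      if x + a ≤ N ∧ 3 * a ≤ 2 * N ∧ 3 * (N - x - a) ≤ 2 * N then
        N.choose x * (N - x).choose a * (g (x + a) * g (N - a)) else 0 := by
    refine sep_count N _ fun G hG => ?_
    obtain ⟨X, A, h1, h2, h3, h4, h5⟩ := separation G hG (by simp; omega)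
    rw [Fintype.card_fin] at h2 h3 h4
    exact ⟨X, A, h1, Nat.le_floor h2, h3, h4, h5⟩
  obtain ⟨x, a, h1, h2, h3, h4, h5⟩ := sep_real g N _ (by omega) (g_pos N (by omega)) hf
  have hx : (x : ℝ) ≤ 14 * Real.sqrt N :=
    (Nat.cast_le.mpr h1).trans (Nat.floor_le hs0)
  refine ⟨x, a, hx, h2, h3, h4, ?_⟩
  have hfl : ((⌊14 * Real.sqrt N⌋₊ : ℕ) : ℝ) ≤ 14 * Real.sqrt N := Nat.floor_le hs0
  have e1 := g_div_le (x + a)
  have e2 := g_div_le (N - a)
  have e3 := h_le_g N
  have p1 : (0 : ℝ) ≤ (g (x + a) : ℝ) / (x + a).factorial := by positivity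
  have p2 : (0 : ℝ) ≤ (g (N - a) : ℝ) / (N - a).factorial := by positivity
  have p3 := (h_pos (x + a + 1) (by omega)).le
  have p4 := (h_pos (N - a + 1) (by omega)).le
  calc h N ≤ N * ((g N : ℝ) / N.factorial) := e3
    _ ≤ N * ((⌊14 * Real.sqrt N⌋₊ + 1) * (N + 1) * (N : ℝ) ^ (2 * x) *
        ((g (x + a) : ℝ) / (x + a).factorial) * ((g (N - a) : ℝ) / (N - a).factorial)) := by
        gcongr
    _ ≤ N * ((14 * Real.sqrt N + 1) * (N + 1) * (N : ℝ) ^ (2 * x) *
        h (x + a + 1) * h (N - a + 1)) := by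
        gcongr
    _ = _ := by ring

lemma log_bound (N x : ℕ) (hN : 2 ≤ N) (hx : (x : ℝ) ≤ 14 * Real.sqrt N) :
    Real.log (N * (14 * Real.sqrt N + 1) * (N + 1) * (N : ℝ) ^ (2 * x)) ≤
      40 * Real.sqrt N * Real.log N := by
  have hN' : (2 : ℝ) ≤ N := by exact_mod_cast hN
  have hN0 : (0 : ℝ) < N := by linarith
  have hl : 0 ≤ Real.log N := Real.log_nonneg (by linarith)
  have hs1 : 1 ≤ Real.sqrt N := by
    rw [Real.one_le_sqrt]
    linarith
  have hsN : Real.sqrt N ≤ N := by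
    rw [Real.sqrt_le_left (by linarith)]
    nlinarith
  have a1 : Real.log (14 * Real.sqrt N + 1) ≤ 5 * Real.log N := by
    rw [show (5 : ℝ) * Real.log N = Real.log ((N : ℝ) ^ 5) by
      rw [Real.log_pow]; norm_num]
    refine Real.log_le_log (by positivity) ?_
    have : (16 : ℝ) ≤ (N : ℝ) ^ 4 := by
      calc (16 : ℝ) = 2 ^ 4 := by norm_num
        _ ≤ (N : ℝ) ^ 4 := by gcongr
    calc 14 * Real.sqrt N + 1 ≤ 15 * N := by linarith
      _ ≤ (N : ℝ) ^ 4 * N := by nlinarith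
      _ = (N : ℝ) ^ 5 := by ring
  have a2 : Real.log ((N : ℝ) + 1) ≤ 2 * Real.log N := by
    rw [show (2 : ℝ) * Real.log N = Real.log ((N : ℝ) ^ 2) by
      rw [Real.log_pow]; norm_num]
    refine Real.log_le_log (by positivity) ?_
    nlinarith
  have a3 : Real.log ((N : ℝ) ^ (2 * x)) ≤ 28 * Real.sqrt N * Real.log N := by
    rw [Real.log_pow]
    push_cast
    refine mul_le_mul_of_nonneg_right ?_ hl
    linarith
  have q1 : (14 * Real.sqrt N + 1) ≠ 0 := by positivity
  rw [Real.log_mul (by positivity) (by positivity), Real.log_mul (by positivity) (by positivity),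
    Real.log_mul (by positivity) (by positivity)]
  have a4 : Real.log N ≤ Real.sqrt N * Real.log N := by nlinarith
  nlinarith

end LogRecAux

open LogRecAux in
theorem hyp_log : Hyp (fun n => Real.log (h n)) where
  one := by simp [h_one]
  sup a b ha hb := by
    have h1 := h_pos a ha
    have h2 := h_pos b hb
    show Real.log (h a) + Real.log (h b) ≤ Real.log (h (a + b))
    rw [← Real.log_mul h1.ne' h2.ne']
    exact Real.log_le_log (by positivity) (h_super a b ha hb)
  triv n hn := by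
    show Real.log (h n) ≤ (n : ℝ) ^ 2
    have h1 := Real.log_le_log (h_pos n hn) (h_le_pow n)
    rw [Real.log_pow] at h1
    have h2 : Real.log 2 ≤ 1 := by
      have := Real.log_two_lt_d9
      linarith
    have h3 : ((n * n : ℕ) : ℝ) * Real.log 2 ≤ ((n * n : ℕ) : ℝ) * 1 := by gcongr
    push_cast at h1 h3
    nlinarith
  rcr N hN := by
    obtain ⟨x, a, h1, h2, h3, h4, h5⟩ := key N hN
    have hN' : (2 : ℝ) ≤ N := by exact_mod_cast hN
    have hs1 : 1 ≤ Real.sqrt N := by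
      rw [Real.one_le_sqrt]
      linarith
    refine ⟨x + a + 1, N - a + 1, by omega, by omega, by omega, ?_, ?_⟩
    · have : x + a + 1 + (N - a + 1) = N + x + 2 := by omega
      rw [this]
      push_cast
      linarith
    · show Real.log (h N) ≤ Real.log (h (x + a + 1)) + Real.log (h (N - a + 1)) +
        40 * Real.sqrt N * Real.log N
      have p1 := h_pos (x + a + 1) (by omega)
      have p2 := h_pos (N - a + 1) (by omega)
      have hN0 : (0 : ℝ) < N := by linarith
      have h6 := Real.log_le_log (h_pos N (by omega)) h5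
      rw [Real.log_mul (by positivity) p2.ne', Real.log_mul (by positivity) p1.ne'] at h6
      have h7 := log_bound N x hN h1
      linarith

end P512
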