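import Pool.Agent.Lib.P512.Bfs

/-!
# P512.ProdL: the lemma of Alon, Seymour and Thomas

`m = 0`: take `a ∈ A 0`, `T = {a}`.
`m ≥ 1`: let `J` be the graph on `Fin m × V` with `J.Adj (i,u) (j,v)` iff `u ∈ D`, `v ∈ D` and
((`i = j` and `G.Adj u v`) or (`u = v` and `i + 1 = j` (as numbers) and `u ∈ A j.castSucc`) or (`u = v` and `j + 1 = i` and `u ∈ A i.castSucc`)).
Apply `bfs` to `X0 = {(0, v) : v ∈ A 0}` and `Y0 = {(m-1, v) : v ∈ A (last)}`.
(1) A connected `P` with at most `r` elements meeting both: `T = P.image Prod.snd`.  `T.card ≤ r`; `T ⊆ D` (a vertex of `P` is in `X0`, or has a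
neighbour in `P`: `Conn` with `P' = {v}`; or directly: `P ⊆ univ ×ˢ D` by `conn_subset` since `X0 ⊆ univ ×ˢ D` and every edge stays there);
`T` is connected (given `Q ⊆ T`, take `P' = P.filter (·.2 ∈ Q)`; the crossing edge has different second coordinates, so it is an edge of `G`);
`T` meets `A 0` and `A last`; for `0 < i < m` (an index `i` of `A`, `i = j.castSucc`, `j : Fin m`, `j ≠ 0`): `P' = P.filter (·.1 < j)` is not empty and not `P`, a crossing edge goes from `(j-1,u)`
to `(j,u)` with `u ∈ A i`.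
(2) The set `Z'` of at most `card (Fin m × V) / r`: `Z = (Z'.image Prod.snd) ∩ D`, `Z.card * r ≤ Z'.card * r ≤ m * card V`.
Let `S ⊆ D` be connected, avoid `Z` and meet every `A i`.  Then `univ ×ˢ S` is connected in `J`: (induction on `j`: the set `{(i,v) : i ≤ j, v ∈ S}` is connected, by `conn_union` with the copy `{j} ×ˢ S` and the
edge `(j-1,u) - (j,u)`, `u ∈ A j ∩ S`), it meets `X0` and `Y0`, so it meets `Z'`, so `S` meets `Z`: contradiction.
-/

namespace P512

open Finset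

variable {V : Type*}

namespace ProdLAux

/-- the layered graph -/
def J (G : SimpleGraph V) (D : Finset V) (m : ℕ) (A : Fin (m + 1) → Finset V) :
    SimpleGraph (Fin m × V) where
  Adj p q := p.2 ∈ D ∧ q.2 ∈ D ∧ ((p.1 = q.1 ∧ G.Adj p.2 q.2) ∨
    (p.2 = q.2 ∧ p.1.val + 1 = q.1.val ∧ p.2 ∈ A q.1.castSucc) ∨
    (p.2 = q.2 ∧ q.1.val + 1 = p.1.val ∧ p.2 ∈ A p.1.castSucc))
  symm := by
    refine ⟨?_⟩
    rintro p q ⟨h1, h2, ⟨h3, h4⟩ | ⟨h3, h4, h5⟩ | ⟨h3, h4, h5⟩⟩
    · exact ⟨h2, h1, Or.inl ⟨h3.symm, h4.symm⟩⟩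
    · exact ⟨h2, h1, Or.inr (Or.inr ⟨h3.symm, h4, h3 ▸ h5⟩)⟩
    · exact ⟨h2, h1, Or.inr (Or.inl ⟨h3.symm, h4, h3 ▸ h5⟩)⟩
  loopless := by
    refine ⟨?_⟩
    rintro p ⟨h1, h2, ⟨h3, h4⟩ | ⟨h3, h4, h5⟩ | ⟨h3, h4, h5⟩⟩
    · exact G.loopless.irrefl _ h4
    · omega
    · omega

/-- the copy of `S` in layer `j` -/
def copy [Fintype V] [DecidableEq V] (m : ℕ) (S : Finset V) (j : ℕ) : Finset (Fin m × V) :=
  univ.filter (fun p => p.1.val = j ∧ p.2 ∈ S)

/-- the copies of `S` in layers up to `j` -/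
def upto [Fintype V] [DecidableEq V] (m : ℕ) (S : Finset V) (j : ℕ) : Finset (Fin m × V) :=
  univ.filter (fun p => p.1.val ≤ j ∧ p.2 ∈ S)

theorem copy_conn [Fintype V] [DecidableEq V] {G : SimpleGraph V} {D : Finset V} {m : ℕ}
    {A : Fin (m + 1) → Finset V} {S : Finset V} (hSD : S ⊆ D) (hS : Conn G S) {j : ℕ}
    (hj : j < m) : Conn (J G D m A) (copy m S j) := by
  refine ⟨?_, fun P hP hne hneq => ?_⟩
  · obtain ⟨s, hs⟩ := hS.1
    exact ⟨(⟨j, hj⟩, s), by simp [copy, hs]⟩
  · obtain ⟨u, hu, v, hv, hvn, hadj⟩ := hS.2 (P.image Prod.snd) (by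
      intro x hx
      obtain ⟨p, hp, rfl⟩ := Finset.mem_image.1 hx
      exact (Finset.mem_filter.1 (hP hp)).2.2) (hne.image _) (fun he => hneq (by
        refine le_antisymm hP (fun q hq => ?_)
        have hq' := (Finset.mem_filter.1 hq).2
        have : q.2 ∈ P.image Prod.snd := by rw [he]; exact hq'.2
        obtain ⟨p, hp, hpq⟩ := Finset.mem_image.1 this
        have hp' := (Finset.mem_filter.1 (hP hp)).2
        have : p = q := Prod.ext (Fin.ext (by omega)) hpq
        exact this ▸ hp))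
    obtain ⟨p, hp, rfl⟩ := Finset.mem_image.1 hu
    have hp' := (Finset.mem_filter.1 (hP hp)).2
    refine ⟨p, hp, (⟨j, hj⟩, v), ?_, ?_, ?_⟩
    · simp [copy, hv]
    · intro hcon
      exact hvn (Finset.mem_image.2 ⟨_, hcon, rfl⟩)
    · exact ⟨hSD hp'.2, hSD hv, Or.inl ⟨Fin.ext hp'.1, hadj⟩⟩

theorem upto_conn [Fintype V] [DecidableEq V] {G : SimpleGraph V} {D : Finset V} {m : ℕ}
    {A : Fin (m + 1) → Finset V} {S : Finset V} (hSD : S ⊆ D) (hS : Conn G S)
    (hmeet : ∀ i, ∃ v ∈ S, v ∈ A i) (j : ℕ) (hj : j < m) :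
    Conn (J G D m A) (upto m S j) := by
  induction j with
  | zero =>
    have : upto m S 0 = copy m S 0 := by
      ext p
      simp [upto, copy]
    rw [this]
    exact copy_conn hSD hS hj
  | succ j ih =>
    have h1 : upto m S (j + 1) = upto m S j ∪ copy m S (j + 1) := by
      ext p
      simp only [upto, copy, Finset.mem_filter, Finset.mem_univ, true_and, Finset.mem_union]
      constructor
      · rintro ⟨h, hs⟩
        rcases Nat.lt_or_ge p.1.val (j + 1) with h' | h'
        · exact Or.inl ⟨by omega, hs⟩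
        · exact Or.inr ⟨by omega, hs⟩
      · rintro (⟨h, hs⟩ | ⟨h, hs⟩)
        · exact ⟨by omega, hs⟩
        · exact ⟨by omega, hs⟩
    rw [h1]
    obtain ⟨v, hv, hvA⟩ := hmeet (Fin.castSucc ⟨j + 1, hj⟩)
    refine conn_union (ih (by omega)) (copy_conn hSD hS hj) (Or.inr
      ⟨(⟨j, by omega⟩, v), by simp [upto, hv], (⟨j + 1, hj⟩, v), by simp [copy, hv], ?_⟩)
    exact ⟨hSD hv, hSD hv, Or.inr (Or.inl ⟨rfl, rfl, hvA⟩)⟩

end ProdLAux

open ProdLAux in
theorem prod_lemma [Fintype V] [DecidableEq V] (G : SimpleGraph V) (D : Finset V) (m : ℕ)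
    (A : Fin (m + 1) → Finset V) (hA : ∀ i, A i ⊆ D) (hne : ∀ i, (A i).Nonempty) (r : ℕ)
    (hr : 1 ≤ r) :
    (∃ T : Finset V, T ⊆ D ∧ Conn G T ∧ T.card ≤ r ∧ ∀ i, ∃ v ∈ T, v ∈ A i) ∨
    ∃ Z : Finset V, Z ⊆ D ∧ Z.card * r ≤ m * Fintype.card V ∧
      ∀ S : Finset V, S ⊆ D → Conn G S → (∀ v ∈ S, v ∉ Z) → ∃ i, ∀ v ∈ S, v ∉ A i := by
  classical
  rcases Nat.eq_zero_or_pos m with hm | hm
  · subst hm
    left
    obtain ⟨a, ha⟩ := hne 0
    refine ⟨{a}, by simpa using hA 0 ha, conn_singleton G a, by simpa using hr, fun i => ?_⟩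
    have : i = 0 := Fin.ext (by omega)
    subst this
    exact ⟨a, by simp, ha⟩
  · let X0 : Finset (Fin m × V) := univ.filter (fun p => p.1.val = 0 ∧ p.2 ∈ A 0)
    let Y0 : Finset (Fin m × V) := univ.filter (fun p => p.1.val + 1 = m ∧ p.2 ∈ A (Fin.last m))
    rcases bfs (J G D m A) X0 Y0 r hr with ⟨P, hP, hPr, ⟨x, hxP, hxX⟩, ⟨y, hyP, hyY⟩⟩ | ⟨Z', hZ', hZ2⟩
    · left
      have hxX' := (Finset.mem_filter.1 hxX).2
      have hyY' := (Finset.mem_filter.1 hyY).2
      have hPD : P ⊆ univ.filter (fun p : Fin m × V => p.2 ∈ D) := by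
        refine conn_subset (X := ∅) hP (fun u _ v huv => ?_) (by simp) ⟨x, hxP, ?_⟩
        · left
          exact Finset.mem_filter.2 ⟨Finset.mem_univ _, huv.2.1⟩
        · exact Finset.mem_filter.2 ⟨Finset.mem_univ _, hA 0 hxX'.2⟩
      refine ⟨P.image Prod.snd, ?_, ⟨hP.1.image _, fun Q hQ hQne hQneq => ?_⟩,
        Finset.card_image_le.trans hPr, fun i => ?_⟩
      · intro v hv
        obtain ⟨p, hp, rfl⟩ := Finset.mem_image.1 hv
        exact (Finset.mem_filter.1 (hPD hp)).2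
      · obtain ⟨q, hq⟩ := hQne
        obtain ⟨p, hp, hpq⟩ := Finset.mem_image.1 (hQ hq)
        obtain ⟨u, hu, v, hv, hvn, hadj⟩ := hP.2 (P.filter (fun p => p.2 ∈ Q))
          (Finset.filter_subset _ _) ⟨p, by simp [hp, hpq, hq]⟩ (fun he => hQneq (by
            refine le_antisymm hQ (fun t ht => ?_)
            obtain ⟨p', hp', rfl⟩ := Finset.mem_image.1 ht
            rw [← he] at hp'
            exact (Finset.mem_filter.1 hp').2))
        have hu' := Finset.mem_filter.1 hu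
        have hvQ : v.2 ∉ Q := fun h => hvn (Finset.mem_filter.2 ⟨hv, h⟩)
        refine ⟨u.2, hu'.2, v.2, Finset.mem_image_of_mem _ hv, hvQ, ?_⟩
        rcases hadj with ⟨-, -, ⟨-, h⟩ | ⟨h, -⟩ | ⟨h, -⟩⟩
        · exact h
        · exact absurd (h ▸ hu'.2) hvQ
        · exact absurd (h ▸ hu'.2) hvQ
      · rcases Nat.eq_zero_or_pos i.val with hi0 | hi0
        · have : i = 0 := Fin.ext hi0
          subst this
          exact ⟨x.2, Finset.mem_image_of_mem _ hxP, hxX'.2⟩
        · rcases Nat.lt_or_ge i.val m with him | him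
          · obtain ⟨u, hu, v, hv, hvn, hadj⟩ := hP.2 (P.filter (fun p => p.1.val < i.val))
              (Finset.filter_subset _ _) ⟨x, by simp only [Finset.mem_filter]; exact ⟨hxP, by omega⟩⟩
              (fun he => by
                rw [← he] at hyP
                have := (Finset.mem_filter.1 hyP).2
                omega)
            have hu' := Finset.mem_filter.1 hu
            have hv' : ¬ v.1.val < i.val := fun h => hvn (Finset.mem_filter.2 ⟨hv, h⟩)
            have hul := hu'.2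
            rcases hadj with ⟨-, -, ⟨h, -⟩ | ⟨h, h2, h3⟩ | ⟨h, h2, h3⟩⟩
            · rw [h] at hul
              exact absurd hul hv'
            · have h4 : v.1.castSucc = i := Fin.ext (by simp only [Fin.val_castSucc]; omega)
              rw [h4] at h3
              exact ⟨u.2, Finset.mem_image_of_mem _ hu'.1, h3⟩
            · omega
          · have : i = Fin.last m := Fin.ext (by simp only [Fin.val_last]; omega)
            subst this
            exact ⟨y.2, Finset.mem_image_of_mem _ hyP, hyY'.2⟩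
    · right
      refine ⟨(Z'.image Prod.snd) ∩ D, Finset.inter_subset_right, ?_, fun S hSD hS hSZ => ?_⟩
      · have h1 : ((Z'.image Prod.snd) ∩ D).card ≤ Z'.card :=
          (Finset.card_le_card Finset.inter_subset_left).trans Finset.card_image_le
        have h2 : Fintype.card (Fin m × V) = m * Fintype.card V := by
          simp
        calc ((Z'.image Prod.snd) ∩ D).card * r ≤ Z'.card * r := Nat.mul_le_mul_right _ h1
          _ ≤ Fintype.card (Fin m × V) := hZ'
          _ = m * Fintype.card V := h2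
      · by_contra hcon
        push Not at hcon
        obtain ⟨a, haS, haA⟩ := hcon 0
        obtain ⟨b, hbS, hbA⟩ := hcon (Fin.last m)
        obtain ⟨v, hv, hvZ⟩ := hZ2 (upto m S (m - 1))
          (upto_conn hSD hS hcon (m - 1) (by omega))
          ⟨(⟨0, hm⟩, a), by simp [upto, haS], by simp [X0, haA]⟩
          ⟨(⟨m - 1, by omega⟩, b), by simp [upto, hbS], by
            simp only [Y0, Finset.mem_filter, Finset.mem_univ, true_and]
            exact ⟨by omega, hbA⟩⟩
        have hvS : v.2 ∈ S := (Finset.mem_filter.1 hv).2.2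
        exact hSZ v.2 hvS (Finset.mem_inter.2 ⟨Finset.mem_image_of_mem _ hvZ, hSD hvS⟩)

end P512
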