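import Pool.Agent.Lib.P512.ConnB

/-!
# P512.SupA: a big pendant part at a root is unique

`B = Aᶜ`, `B' = A'ᶜ` have `b ≥ (a+b)/2` elements each and do not contain `x`, so they meet (`Finset.card_union_add_card_inter`; `B ∪ B' ⊆ univ.erase x`).
`B'` is connected, avoids `{x}`, and `B` has no edges leaving it except to `{x}` (`hcut`: an edge from `u ∈ B` to `v ∈ A` has `v = x`), so `B' ⊆ B` by `conn_subset` (`X = {x}`).  Same cardinality: `B = B'`, `A = A'`.
Then the edge `x y'` (`hy'`) leaves `A`: `y' = y`.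
-/

namespace P512

open Finset

variable {V : Type*}

theorem part_unique [Fintype V] [DecidableEq V] (G : SimpleGraph V) (a b : ℕ) (hab : a ≤ b)
    (hV : Fintype.card V = a + b) (x y y' : V) (A A' : Finset V) (hA : A.card = a)
    (hA' : A'.card = a) (hx : x ∈ A) (hx' : x ∈ A')
    (hcut : ∀ u ∈ A, ∀ v, v ∉ A → G.Adj u v → u = x ∧ v = y)
    (hcut' : ∀ u ∈ A', ∀ v, v ∉ A' → G.Adj u v → u = x ∧ v = y')
    (hy' : y' ∉ A' ∧ G.Adj x y') (hc : Conn G Aᶜ) (hc' : Conn G A'ᶜ) : A = A' ∧ y = y' := by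
  have hcB : (Aᶜ).card = b := by rw [Finset.card_compl, hV, hA]; omega
  have hcB' : (A'ᶜ).card = b := by rw [Finset.card_compl, hV, hA']; omega
  have hmeet : ∃ v ∈ A'ᶜ, v ∈ Aᶜ := by
    by_contra hcon
    push Not at hcon
    have hdis : Disjoint A'ᶜ Aᶜ := Finset.disjoint_left.2 (fun v h1 h2 => hcon v h1 h2)
    have h1 : (A'ᶜ ∪ Aᶜ).card = b + b := by
      rw [Finset.card_union_of_disjoint hdis, hcB, hcB']
    have h2 : A'ᶜ ∪ Aᶜ ⊆ Finset.univ.erase x := by
      intro v hv
      rw [Finset.mem_erase]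
      refine ⟨?_, Finset.mem_univ v⟩
      rintro rfl
      rcases Finset.mem_union.1 hv with h | h
      · exact Finset.mem_compl.1 h hx'
      · exact Finset.mem_compl.1 h hx
    have h3 := Finset.card_le_card h2
    rw [h1, Finset.card_erase_of_mem (Finset.mem_univ x), Finset.card_univ, hV] at h3
    have h4 : 0 < A.card := Finset.card_pos.2 ⟨x, hx⟩
    omega
  have hsub : A'ᶜ ⊆ Aᶜ := by
    refine conn_subset (X := {x}) hc' ?_ ?_ hmeet
    · intro u hu v huv
      by_cases hv : v ∈ Aᶜ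
      · exact Or.inl hv
      · right
        rw [Finset.mem_compl, not_not] at hv
        rw [Finset.mem_singleton]
        exact (hcut v hv u (Finset.mem_compl.1 hu) huv.symm).1
    · intro v hv hvx
      rw [Finset.mem_singleton] at hvx
      subst hvx
      exact Finset.mem_compl.1 hv hx'
  have heq : A'ᶜ = Aᶜ := Finset.eq_of_subset_of_card_le hsub (by rw [hcB, hcB'])
  have hAA : A = A' := (compl_injective heq).symm
  subst hAA
  exact ⟨rfl, (hcut x hx y' hy'.1 hy'.2).2.symm⟩

end P512
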