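import Pool.Agent.Lib.P512.SupA
import Pool.Agent.Lib.P512.SupB

/-!
# P512.SupC: rooted connected graphs are supermultiplicative

`V = Fin (a + b)`.  The type `T` of tuples `(A, x, y, G1, G2)` with `A ∈ powersetCard a univ`, `x ∈ A`, `y ∈ Aᶜ`, `G1`, `G2` connected without `K_5` minor on `A`, `Aᶜ` has
`(a+b).choose a * (a * b * (c a * c b))` elements (`card_c`, `Fintype.card {v // v ∈ A} = a`, `Fintype.card {v // v ∈ Aᶜ} = b`; a sigma type over `A`).
The map `T → Fin (a+b) × {G // ¬ K5 G ∧ G.Connected}`, `(A,x,y,G1,G2) ↦ (x, G)` with `G` from `joined` (choice) is injective: by `part_unique` `A` and `y` are determined by `(x, G)`, and `G1`, `G2` are the restrictions of `G`.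
The target has `(a+b) * c (a+b)` elements.  `Nat.card_le_card_of_injective` (or `Finite.card_le_of_injective`).
-/

namespace P512

open Finset

namespace SupCAux

/-- the fibre over a set `A` -/
abbrev Fib {m : ℕ} (A : Finset (Fin m)) : Type :=
  {x // x ∈ A} × {y // y ∈ Aᶜ} × {G : SimpleGraph {v // v ∈ A} // ¬ K5 G ∧ G.Connected} ×
    {G : SimpleGraph {v // v ∈ Aᶜ} // ¬ K5 G ∧ G.Connected}

theorem card_fib (a b : ℕ) (A : Finset (Fin (a + b))) (hA : A.card = a) :
    Nat.card (Fib A) = a * b * (c a * c b) := by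
  have hAc : (Aᶜ).card = b := by
    rw [Finset.card_compl, Fintype.card_fin, hA]
    omega
  rw [Nat.card_prod, Nat.card_prod, Nat.card_prod, card_c, card_c, Nat.card_eq_fintype_card,
    Nat.card_eq_fintype_card, Fintype.card_coe, Fintype.card_coe, hA, hAc]
  ring

end SupCAux

open SupCAux in
theorem super_mul (a b : ℕ) (ha : 1 ≤ a) (hab : a ≤ b) :
    (a + b).choose a * (a * b * (c a * c b)) ≤ (a + b) * c (a + b) := by
  classical
  let S : Type := {A : Finset (Fin (a + b)) // A ∈ powersetCard a (univ : Finset (Fin (a + b)))}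
  let T : Type := Σ A : S, Fib A.1
  have hT : Nat.card T = (a + b).choose a * (a * b * (c a * c b)) := by
    change Nat.card (Σ A : S, Fib A.1) = _
    rw [Nat.card_sigma]
    rw [Finset.sum_congr rfl fun (A : S) _ => card_fib a b A.1 (mem_powersetCard.1 A.2).2]
    rw [Finset.sum_const, Finset.card_univ, smul_eq_mul]
    congr 1
    change Fintype.card {A : Finset (Fin (a + b)) //
      A ∈ powersetCard a (univ : Finset (Fin (a + b)))} = _
    rw [Fintype.card_coe, Finset.card_powersetCard, Finset.card_univ, Fintype.card_fin]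
  have hR : Nat.card (Fin (a + b) × {G : SimpleGraph (Fin (a + b)) // ¬ K5 G ∧ G.Connected}) =
      (a + b) * c (a + b) := by
    rw [Nat.card_prod, Nat.card_eq_fintype_card, Fintype.card_fin, c]
  have hex : ∀ t : T, ∃ G : SimpleGraph (Fin (a + b)),
      G.comap (subA t.1.1) = t.2.2.2.1.1 ∧ G.comap (subA (t.1.1)ᶜ) = t.2.2.2.2.1 ∧
      G.Adj t.2.1.1 t.2.2.1.1 ∧
      (∀ u ∈ t.1.1, ∀ v, v ∉ t.1.1 → G.Adj u v → u = t.2.1.1 ∧ v = t.2.2.1.1) ∧
      Conn G t.1.1 ∧ Conn G (t.1.1)ᶜ ∧ ¬ K5 G ∧ G.Connected := fun t =>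
    joined t.1.1 t.2.1.1 t.2.2.1.1 t.2.1.2 (Finset.mem_compl.1 t.2.2.1.2) t.2.2.2.1.1
      t.2.2.2.2.1 t.2.2.2.1.2 t.2.2.2.2.2
  choose J hJ using hex
  let f : T → Fin (a + b) × {G : SimpleGraph (Fin (a + b)) // ¬ K5 G ∧ G.Connected} :=
    fun t => (t.2.1.1, ⟨J t, (hJ t).2.2.2.2.2.2⟩)
  have hf : Function.Injective f := by
    intro s t hst
    have h1 : s.2.1.1 = t.2.1.1 := congrArg Prod.fst hst
    have h2 : J s = J t := congrArg (fun z => z.2.1) hst
    have hs := hJ s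
    have ht := hJ t
    rw [← h2] at ht
    obtain ⟨⟨A, hA⟩, ⟨x, hx⟩, ⟨y, hy⟩, ⟨G1, hG1⟩, ⟨G2, hG2⟩⟩ := s
    obtain ⟨⟨A', hA'⟩, ⟨x', hx'⟩, ⟨y', hy'⟩, ⟨G1', hG1'⟩, ⟨G2', hG2'⟩⟩ := t
    dsimp only at h1 hs ht
    subst h1
    generalize J _ = G at hs ht
    obtain ⟨e1, e2, e3, e4, e5, e6, -, -⟩ := hs
    obtain ⟨f1, f2, f3, f4, f5, f6, -, -⟩ := ht
    obtain ⟨hAA, hyy⟩ := part_unique G a b hab (Fintype.card_fin _) x y y' A A'
      (mem_powersetCard.1 hA).2 (mem_powersetCard.1 hA').2 hx hx' e4 f4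
      ⟨Finset.mem_compl.1 hy', f3⟩ e6 f6
    subst hAA
    subst hyy
    have E1 : G1 = G1' := e1.symm.trans f1
    have E2 : G2 = G2' := e2.symm.trans f2
    subst E1
    subst E2
    rfl
  have hle := Nat.card_le_card_of_injective f hf
  rwa [hT, hR] at hle

end P512
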